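import Pool.Agent.D0H65.LP.KloA
import Pool.Agent.D0H41.LP.Stm

/-!
# LP, module KLO: points on modular hyperbolas in residue classes
-/

set_option autoImplicit false

namespace Pool.Agent.D0H65.LP

open Finset Pool.Agent.D0H41.LP

/-- count of a residue class in an interval -/
theorem cls_card (A B : ℤ) (hAB : A ≤ B + 1) (R : ℕ) (hR : 0 < R) (v : ℤ) :
    |(((Icc A B).filter fun x : ℤ => x ≡ v [ZMOD R]).card : ℝ) - ((B : ℝ) - A + 1) / R| ≤ 1 := by
  have hRz : (0 : ℤ) < R := by exact_mod_cast hR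
  have h1 : Icc A B = Ioc (A - 1) B := by
    ext x; simp only [mem_Icc, mem_Ioc]; omega
  rw [h1]
  have hcard := Int.Ioc_filter_modEq_card (A - 1) B hRz v
  set a : ℚ := (((A - 1 : ℤ) : ℚ) - v) / ((R : ℤ) : ℚ) with ha
  set b : ℚ := ((B : ℚ) - v) / ((R : ℤ) : ℚ) with hb
  have hRq : (0 : ℚ) < ((R : ℤ) : ℚ) := by exact_mod_cast hRz
  have hab : a ≤ b := by
    rw [ha, hb]
    apply div_le_div_of_nonneg_right _ hRq.le
    have : ((A - 1 : ℤ) : ℚ) ≤ (B : ℚ) := by exact_mod_cast (by omega : A - 1 ≤ B)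
    linarith
  have hfl : ⌊a⌋ ≤ ⌊b⌋ := Int.floor_le_floor hab
  rw [max_eq_left (by omega)] at hcard
  have hcard' : ((((Ioc (A - 1) B).filter fun x : ℤ => x ≡ v [ZMOD R]).card : ℕ) : ℝ) =
      ((⌊b⌋ - ⌊a⌋ : ℤ) : ℝ) := by
    rw [← hcard, Int.cast_natCast]
  rw [hcard']
  have hdiff : ((b - a : ℚ) : ℝ) = ((B : ℝ) - A + 1) / R := by
    rw [ha, hb]
    push_cast
    ring
  rw [← hdiff]
  have h2 : |((⌊b⌋ - ⌊a⌋ : ℤ) : ℚ) - (b - a)| ≤ 1 := by
    rw [abs_le]
    push_cast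
    have := Int.floor_le a
    have := Int.lt_floor_add_one a
    have := Int.floor_le b
    have := Int.lt_floor_add_one b
    constructor <;> linarith
  have h3 : ((|((⌊b⌋ - ⌊a⌋ : ℤ) : ℚ) - (b - a)| : ℚ) : ℝ) ≤ ((1 : ℚ) : ℝ) := by
    exact_mod_cast h2
  push_cast at h3 ⊢
  exact h3

/-- Chinese remainder theorem -/
theorem crt (m n : ℕ) (h : Nat.Coprime m n) (x y : ℤ) :
    ∃ r : ℤ, ∀ z : ℤ, (z ≡ x [ZMOD m] ∧ z ≡ y [ZMOD n]) ↔ z ≡ r [ZMOD ((m * n : ℕ) : ℤ)] := by
  obtain ⟨a, b, hab⟩ := Nat.isCoprime_iff_coprime.2 h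
  have hc : IsCoprime (m : ℤ) (n : ℤ) := ⟨a, b, hab⟩
  refine ⟨x * (b * n) + y * (a * m), fun z => ?_⟩
  have hx : x * (b * n) + y * (a * m) ≡ x [ZMOD m] := by
    apply Int.ModEq.symm
    rw [Int.modEq_iff_dvd]
    refine ⟨a * (y - x), ?_⟩
    linear_combination x * hab
  have hy : x * (b * n) + y * (a * m) ≡ y [ZMOD n] := by
    apply Int.ModEq.symm
    rw [Int.modEq_iff_dvd]
    refine ⟨b * (x - y), ?_⟩
    linear_combination y * hab
  constructor
  · rintro ⟨h1, h2⟩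
    have e1 := (h1.trans hx.symm)
    have e2 := (h2.trans hy.symm)
    rw [Int.modEq_iff_dvd] at e1 e2 ⊢
    push_cast
    exact hc.mul_dvd e1 e2
  · intro h1
    rw [Int.modEq_iff_dvd] at h1
    push_cast at h1
    constructor
    · refine Int.ModEq.trans ?_ hx
      rw [Int.modEq_iff_dvd]
      exact (dvd_mul_right _ _).trans h1
    · refine Int.ModEq.trans ?_ hy
      rw [Int.modEq_iff_dvd]
      exact (dvd_mul_left _ _).trans h1

theorem sum_moebius (n : ℕ) :
    ∑ e ∈ n.divisors, (ArithmeticFunction.moebius e : ℤ) = if n = 1 then 1 else 0 := by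
  rw [← ArithmeticFunction.coe_mul_zeta_apply, ArithmeticFunction.moebius_mul_coe_zeta,
    ArithmeticFunction.one_apply]

/-- sieve of Eratosthenes: residues coprime to `M` in a class -/
theorem cop_card (M d : ℕ) (hM : 0 < M) (hd : 0 < d) (hMd : Nat.Coprime M d) (y0 : ℤ) :
    |(((Icc (1 : ℤ) M).filter fun y : ℤ => y ≡ y0 [ZMOD d] ∧ IsCoprime y (M : ℤ)).card : ℝ) -
      (Nat.totient M : ℝ) / d| ≤ M.divisors.card := by
  have hdr : (0 : ℝ) < d := by exact_mod_cast hd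
  -- Möbius
  have hmob : ∀ P : ℤ → Prop, ∀ [DecidablePred P],
      ((((Icc (1 : ℤ) M).filter fun y : ℤ => P y ∧ IsCoprime y (M : ℤ)).card : ℤ)) =
      ∑ e ∈ M.divisors, (ArithmeticFunction.moebius e : ℤ) *
        (((Icc (1 : ℤ) M).filter fun y : ℤ => P y ∧ (e : ℤ) ∣ y).card : ℤ) := by
    intro P _
    have h1 : ∀ y ∈ Icc (1 : ℤ) M, ((if IsCoprime y (M : ℤ) then 1 else 0 : ℤ)) =
        ∑ e ∈ M.divisors, if (e : ℤ) ∣ y then (ArithmeticFunction.moebius e : ℤ) else 0 := by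
      intro y _
      have h2 : (M.divisors.filter fun e : ℕ => (e : ℤ) ∣ y) = (Int.gcd y M).divisors := by
        ext e
        simp only [mem_filter, Nat.mem_divisors]
        constructor
        · rintro ⟨⟨h3, h4⟩, h5⟩
          refine ⟨Int.dvd_gcd h5 (by exact_mod_cast h3), ?_⟩
          exact (Int.gcd_pos_of_ne_zero_right _ (by exact_mod_cast h4)).ne'
        · rintro ⟨h3, _⟩
          refine ⟨⟨?_, hM.ne'⟩, ?_⟩
          · have := (Int.natCast_dvd_natCast.2 h3).trans (Int.gcd_dvd_right y M)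
            exact_mod_cast this
          · exact (Int.natCast_dvd_natCast.2 h3).trans (Int.gcd_dvd_left y M)
      rw [← sum_filter, h2, sum_moebius]
      simp only [Int.isCoprime_iff_gcd_eq_one]
    rw [← filter_filter, card_filter]
    push_cast
    rw [sum_congr rfl (fun y hy => h1 y (mem_filter.1 hy).1), sum_comm]
    apply sum_congr rfl
    intro e _
    rw [← sum_filter, filter_filter, sum_const, nsmul_eq_mul, mul_comm]
  -- the totient
  have hcM : ∀ e ∈ M.divisors,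
      (((Icc (1 : ℤ) M).filter fun y : ℤ => True ∧ (e : ℤ) ∣ y).card : ℝ) = (M : ℝ) / e := by
    intro e he
    have he0 : 0 < e := Nat.pos_of_mem_divisors he
    obtain ⟨k, hk⟩ := Nat.dvd_of_mem_divisors he
    have h1 : ((Icc (1 : ℤ) M).filter fun y : ℤ => True ∧ (e : ℤ) ∣ y) =
        (Icc 1 k).image (fun j : ℕ => ((e * j : ℕ) : ℤ)) := by
      ext y
      simp only [mem_filter, mem_Icc, mem_image, true_and]
      constructor
      · rintro ⟨⟨h2, h3⟩, j, rfl⟩
        have hj : 0 < j := by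
          by_contra hneg
          push Not at hneg
          have : (e : ℤ) * j ≤ 0 := mul_nonpos_of_nonneg_of_nonpos (by positivity) hneg
          omega
        refine ⟨j.toNat, ⟨by omega, ?_⟩, ?_⟩
        · rw [hk] at h3
          push_cast at h3
          have h4 : j ≤ k := le_of_mul_le_mul_left h3 (by exact_mod_cast he0)
          omega
        · push_cast
          rw [Int.toNat_of_nonneg hj.le]
      · rintro ⟨j, ⟨h2, h3⟩, rfl⟩
        refine ⟨⟨?_, ?_⟩, ?_⟩
        · exact_mod_cast Nat.mul_pos he0 h2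
        · rw [hk]
          exact_mod_cast Nat.mul_le_mul_left e h3
        · push_cast
          exact dvd_mul_right _ _
    rw [h1, card_image_of_injective, Nat.card_Icc]
    · rw [hk]
      push_cast
      have : (e : ℝ) ≠ 0 := by exact_mod_cast he0.ne'
      field_simp
    · intro a b hab
      simp only at hab
      have h2 : e * a = e * b := by exact_mod_cast hab
      exact Nat.eq_of_mul_eq_mul_left he0 h2
  have htot : (Nat.totient M : ℝ) =
      ∑ e ∈ M.divisors, ((ArithmeticFunction.moebius e : ℤ) : ℝ) * ((M : ℝ) / e) := by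
    have h1 := hmob (fun _ => True)
    have h2 : (((Icc (1 : ℤ) M).filter fun y : ℤ => True ∧ IsCoprime y (M : ℤ)).card : ℕ) =
        Nat.totient M := by
      rw [Nat.totient_eq_card_coprime]
      rcases Nat.eq_or_lt_of_le (Nat.one_le_iff_ne_zero.2 hM.ne') with h | h
      · rw [← h]
        rfl
      · symm
        refine card_bij (fun (a : ℕ) _ => (a : ℤ)) ?_ ?_ ?_
        · intro a ha
          simp only [mem_filter, mem_range, mem_Icc, true_and] at ha ⊢
          refine ⟨⟨?_, ?_⟩, ?_⟩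
          · rcases Nat.eq_zero_or_pos a with h0 | h0
            · subst h0
              have := ha.2
              rw [Nat.coprime_zero_right] at this
              omega
            · exact_mod_cast h0
          · exact_mod_cast ha.1.le
          · rw [Nat.isCoprime_iff_coprime]; exact ha.2.symm
        · intro a _ b _ hab
          exact_mod_cast hab
        · intro b hb
          simp only [mem_filter, mem_Icc, true_and] at hb
          obtain ⟨⟨hb1, hb2⟩, hb3⟩ := hb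
          lift b to ℕ using (by omega) with c
          refine ⟨c, ?_, rfl⟩
          simp only [mem_filter, mem_range]
          rw [Nat.isCoprime_iff_coprime] at hb3
          refine ⟨?_, hb3.symm⟩
          have h3 : c ≤ M := by exact_mod_cast hb2
          rcases Nat.lt_or_eq_of_le h3 with h4 | h4
          · exact h4
          · rw [h4, Nat.coprime_self] at hb3
            omega
    rw [h2] at h1
    have h3 := congrArg (fun t : ℤ => (t : ℝ)) h1
    simp only [Int.cast_natCast] at h3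
    rw [h3]
    push_cast
    apply sum_congr rfl
    intro e he
    have := hcM e he
    simp only [true_and] at this ⊢
    rw [this]
  have h1 := hmob (fun y => y ≡ y0 [ZMOD d])
  have h2 : (((((Icc (1 : ℤ) M).filter fun y : ℤ => y ≡ y0 [ZMOD d] ∧
      IsCoprime y (M : ℤ)).card : ℕ) : ℝ)) =
      ∑ e ∈ M.divisors, ((ArithmeticFunction.moebius e : ℤ) : ℝ) *
        (((Icc (1 : ℤ) M).filter fun y : ℤ => y ≡ y0 [ZMOD d] ∧ (e : ℤ) ∣ y).card : ℝ) := by
    have h3 := congrArg (fun t : ℤ => (t : ℝ)) h1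
    simp only [Int.cast_natCast] at h3
    rw [h3]
    push_cast
    rfl
  rw [h2, htot, sum_div, ← sum_sub_distrib]
  refine (abs_sum_le_sum_abs _ _).trans ?_
  have h4 : ∀ e ∈ M.divisors, |((ArithmeticFunction.moebius e : ℤ) : ℝ) *
        (((Icc (1 : ℤ) M).filter fun y : ℤ => y ≡ y0 [ZMOD d] ∧ (e : ℤ) ∣ y).card : ℝ) -
        ((ArithmeticFunction.moebius e : ℤ) : ℝ) * ((M : ℝ) / e) / d| ≤ 1 := by
    intro e he
    have he0 : 0 < e := Nat.pos_of_mem_divisors he
    have her : (0 : ℝ) < e := by exact_mod_cast he0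
    have hed : Nat.Coprime d e := (Nat.Coprime.coprime_dvd_left (Nat.dvd_of_mem_divisors he)
      hMd).symm
    obtain ⟨r, hr⟩ := crt d e hed y0 0
    have h5 : ((Icc (1 : ℤ) M).filter fun y : ℤ => y ≡ y0 [ZMOD d] ∧ (e : ℤ) ∣ y) =
        (Icc (1 : ℤ) M).filter fun y : ℤ => y ≡ r [ZMOD ((d * e : ℕ) : ℤ)] := by
      apply filter_congr
      intro y _
      rw [← hr y, Int.modEq_zero_iff_dvd]
    rw [h5]
    have h6 := cls_card 1 M (by omega) (d * e) (Nat.mul_pos hd he0) r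
    have h7 : ((((M : ℕ) : ℤ) : ℝ) - ((1 : ℤ) : ℝ) + 1) / ((d * e : ℕ) : ℝ) = (M : ℝ) / e / d := by
      push_cast
      field_simp
      ring
    rw [h7] at h6
    have h8 : |((ArithmeticFunction.moebius e : ℤ) : ℝ)| ≤ 1 := by
      have := ArithmeticFunction.abs_moebius_le_one (n := e)
      exact_mod_cast this
    have h9 : ((ArithmeticFunction.moebius e : ℤ) : ℝ) *
        (((Icc (1 : ℤ) M).filter fun y : ℤ => y ≡ r [ZMOD ((d * e : ℕ) : ℤ)]).card : ℝ) -
        ((ArithmeticFunction.moebius e : ℤ) : ℝ) * ((M : ℝ) / e) / d =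
        ((ArithmeticFunction.moebius e : ℤ) : ℝ) *
        ((((Icc (1 : ℤ) M).filter fun y : ℤ => y ≡ r [ZMOD ((d * e : ℕ) : ℤ)]).card : ℝ) -
          (M : ℝ) / e / d) := by ring
    rw [h9, abs_mul]
    calc _ ≤ (1 : ℝ) * 1 := mul_le_mul h8 h6 (abs_nonneg _) zero_le_one
      _ = 1 := one_mul 1
  calc _ ≤ ∑ e ∈ M.divisors, (1 : ℝ) := sum_le_sum h4
    _ = _ := by rw [sum_const, nsmul_eq_mul, mul_one]

theorem two_pow_le (q : ℕ) (hq : q ≠ 0) : (2 : ℝ) ^ q.primeFactors.card ≤ q.divisors.card := by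
  rw [Nat.card_divisors hq]
  push_cast
  rw [← prod_const]
  apply prod_le_prod
  · intro i _; norm_num
  · intro i hi
    have h1 : 0 < q.factorization i :=
      (Nat.prime_of_mem_primeFactors hi).factorization_pos_of_dvd hq
        (Nat.dvd_of_mem_primeFactors hi)
    have h2 : (1 : ℝ) ≤ (q.factorization i : ℝ) := by exact_mod_cast h1
    linarith

theorem t_KLO : S_KLO := by
  classical
  refine ⟨2, by norm_num, ?_⟩
  intro M1 M2 d V hsq hM2 hd hM12 hMd y0 s0
  have hM1 : 0 < M1 := Nat.pos_of_ne_zero hsq.ne_zero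
  have hM : 0 < M1 * M2 := Nat.mul_pos hM1 hM2
  have hR : 0 < M2 * d := Nat.mul_pos hM2 hd
  have hM1d : Nat.Coprime M1 d := Nat.Coprime.coprime_dvd_left (dvd_mul_right _ _) hMd
  have hM2d : Nat.Coprime M2 d := Nat.Coprime.coprime_dvd_left (dvd_mul_left _ _) hMd
  have hqR : Nat.Coprime M1 (M2 * d) := Nat.Coprime.mul_right hM12 hM1d
  have hM1r : (0 : ℝ) < M1 := by exact_mod_cast hM1
  have hM2r : (0 : ℝ) < M2 := by exact_mod_cast hM2
  have hdr : (0 : ℝ) < d := by exact_mod_cast hd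
  have hM1r1 : (1 : ℝ) ≤ M1 := by exact_mod_cast hM1
  have hM2r1 : (1 : ℝ) ≤ M2 := by exact_mod_cast hM2
  have hdr1 : (1 : ℝ) ≤ d := by exact_mod_cast hd
  set M : ℕ := M1 * M2 with hMdef
  have hMz : (0 : ℤ) < M := by exact_mod_cast hM
  -- inverses modulo M2
  have hinv : ∀ u : ℕ, Nat.Coprime u M2 → ∃ v : ℤ, (u : ℤ) * v ≡ 1 [ZMOD M2] := by
    intro u hu
    obtain ⟨a, b, hab⟩ := Nat.isCoprime_iff_coprime.2 hu
    refine ⟨a, ?_⟩
    rw [Int.modEq_iff_dvd]
    exact ⟨b, by linarith⟩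
  choose! iv hiv using hinv
  choose rr hrr using fun u : ℕ => crt M2 d hM2d (u : ℤ) y0
  choose tt htt using fun u : ℕ => crt M2 d hM2d (iv u) s0
  set U : Finset ℕ := (range M2).filter (fun u => Nat.Coprime u M2) with hU
  set S := (Om M V).filter (fun t => t.1 ≡ y0 [ZMOD d] ∧ t.2 ≡ s0 [ZMOD d]) with hS
  have hdiv1 : (M1 : ℤ) ∣ (M : ℤ) := by rw [hMdef]; push_cast; exact dvd_mul_right _ _
  have hdiv2 : (M2 : ℤ) ∣ (M : ℤ) := by rw [hMdef]; push_cast; exact dvd_mul_left _ _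
  have hM2z : (0 : ℤ) < M2 := by exact_mod_cast hM2
  have hmodu : ∀ y : ℤ, y ≡ (((y % M2).toNat : ℕ) : ℤ) [ZMOD M2] := by
    intro y
    rw [Int.toNat_of_nonneg (Int.emod_nonneg _ hM2z.ne')]
    exact (Int.mod_modEq y M2).symm
  have hlt : ∀ y : ℤ, (y % M2).toNat < M2 := by
    intro y
    have h1 := Int.emod_lt_of_pos y hM2z
    have h2 := Int.emod_nonneg y hM2z.ne'
    omega
  have hcopu : ∀ y : ℤ, IsCoprime y (M2 : ℤ) → Nat.Coprime (y % M2).toNat M2 := by
    intro y hy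
    rw [← Nat.isCoprime_iff_coprime, Int.toNat_of_nonneg (Int.emod_nonneg _ hM2z.ne')]
    have h1 : IsCoprime (y % M2 + M2 * (y / M2)) (M2 : ℤ) := by
      rw [Int.emod_add_mul_ediv]; exact hy
    exact IsCoprime.of_add_mul_left_left h1
  have hmap : ∀ z ∈ S, (z.1 % M2).toNat ∈ U := by
    intro z hz
    rw [hS, mem_filter, Om, mem_filter] at hz
    rw [hU, mem_filter, mem_range]
    refine ⟨hlt _, hcopu _ ?_⟩
    have h1 := hz.1.2
    rw [Int.modEq_iff_dvd] at h1
    obtain ⟨k, hk⟩ := hdiv2.trans h1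
    exact ⟨z.2, k, by linarith⟩
  have hfib := card_eq_sum_card_fiberwise hmap
  have hfibu : ∀ u ∈ U, S.filter (fun z : ℤ × ℤ => (z.1 % (M2 : ℤ)).toNat = u) =
      ((Icc (1 : ℤ) M) ×ˢ (Icc (-(V : ℤ)) V)).filter fun z : ℤ × ℤ =>
        z.1 ≡ rr u [ZMOD ((M2 * d : ℕ) : ℤ)] ∧ z.2 ≡ tt u [ZMOD ((M2 * d : ℕ) : ℤ)] ∧
        z.1 * z.2 ≡ 1 [ZMOD M1] := by
    intro u hu
    rw [hU, mem_filter, mem_range] at hu
    ext z
    rw [hS, Om]
    simp only [mem_filter, mem_product]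
    constructor
    · rintro ⟨⟨⟨h1, h2⟩, h3, h4⟩, h5⟩
      refine ⟨h1, ?_, ?_, h2.of_dvd hdiv1⟩
      · rw [← hrr u]
        refine ⟨?_, h3⟩
        rw [← h5]; exact hmodu _
      · rw [← htt u]
        refine ⟨?_, h4⟩
        have h6 : z.1 ≡ (u : ℤ) [ZMOD M2] := by rw [← h5]; exact hmodu _
        have h7 : z.1 * z.2 ≡ 1 [ZMOD M2] := h2.of_dvd hdiv2
        have h8 := hiv u hu.2
        calc z.2 = 1 * z.2 := (one_mul _).symm
          _ ≡ ((u : ℤ) * iv u) * z.2 [ZMOD M2] := (h8.symm).mul_right _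
          _ ≡ (z.1 * iv u) * z.2 [ZMOD M2] := ((h6.symm).mul_right _).mul_right _
          _ = iv u * (z.1 * z.2) := by ring
          _ ≡ iv u * 1 [ZMOD M2] := h7.mul_left _
          _ = iv u := mul_one _
    · rintro ⟨h1, h2, h3, h4⟩
      rw [← hrr u] at h2
      rw [← htt u] at h3
      have h5 : z.1 * z.2 ≡ 1 [ZMOD M2] :=
        (h2.1.mul h3.1).trans (hiv u hu.2)
      have h6 : z.1 * z.2 ≡ 1 [ZMOD M] := by
        rw [Int.modEq_iff_dvd] at h4 h5 ⊢
        rw [hMdef]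
        push_cast
        exact (Nat.isCoprime_iff_coprime.2 hM12).mul_dvd h4 h5
      refine ⟨⟨⟨h1, h6⟩, h2.2, h3.2⟩, ?_⟩
      have h7 : (z.1 % M2) = (u : ℤ) % M2 := h2.1
      rw [h7]
      have h8 : ((u : ℤ) % M2) = u := by
        apply Int.emod_eq_of_lt (by positivity)
        exact_mod_cast hu.1
      rw [h8]
      simp
  replace hfib : S.card = ∑ u ∈ U, (((Icc (1 : ℤ) M) ×ˢ (Icc (-(V : ℤ)) V)).filter
      fun z : ℤ × ℤ => z.1 ≡ rr u [ZMOD ((M2 * d : ℕ) : ℤ)] ∧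
        z.2 ≡ tt u [ZMOD ((M2 * d : ℕ) : ℤ)] ∧ z.1 * z.2 ≡ 1 [ZMOD M1]).card := by
    rw [hfib]
    exact sum_congr rfl (fun u hu => by rw [hfibu u hu])
  -- the error for one class
  set q := M1 with hqdef
  set E : ℝ := 2 ^ q.primeFactors.card * (q.divisors.card : ℝ) * Real.sqrt q *
    (1 + Real.log q) * (((((M : ℤ) : ℝ) - ((1 : ℤ) : ℝ)) / ((M2 * d : ℕ) : ℝ) + 1) / q + 1 +
      Real.log q) with hE
  have hone : ∀ u : ℕ, |(((((Icc (1 : ℤ) M) ×ˢ (Icc (-(V : ℤ)) V)).filter fun z : ℤ × ℤ =>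
        z.1 ≡ rr u [ZMOD ((M2 * d : ℕ) : ℤ)] ∧ z.2 ≡ tt u [ZMOD ((M2 * d : ℕ) : ℤ)] ∧
        z.1 * z.2 ≡ 1 [ZMOD q]).card : ℕ) : ℝ) -
      (((Icc (1 : ℤ) M).filter fun y : ℤ => y ≡ rr u [ZMOD ((M2 * d : ℕ) : ℤ)] ∧
        IsCoprime y (q : ℤ)).card : ℝ) *
        (((Icc (-(V : ℤ)) V).filter fun s : ℤ => s ≡ tt u [ZMOD ((M2 * d : ℕ) : ℤ)]).card : ℝ) /
          q| ≤ E := by
    intro u
    exact one_class q (M2 * d) hsq hM1 hR hqR (rr u) (tt u) 1 M (-(V : ℤ)) V (by omega) (by omega)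
  -- number of s
  have hT : ∀ u : ℕ, |(((Icc (-(V : ℤ)) V).filter fun s : ℤ =>
      s ≡ tt u [ZMOD ((M2 * d : ℕ) : ℤ)]).card : ℝ) - (2 * V + 1) / ((M2 * d : ℕ) : ℝ)| ≤ 1 := by
    intro u
    have := cls_card (-(V : ℤ)) V (by omega) (M2 * d) hR (tt u)
    have h2 : (((V : ℤ) : ℝ) - ((-(V : ℤ) : ℤ) : ℝ) + 1) = 2 * V + 1 := by push_cast; ring
    rwa [h2] at this
  -- the sum over u of the numbers of y
  set Y := (Icc (1 : ℤ) M).filter (fun y : ℤ => y ≡ y0 [ZMOD d] ∧ IsCoprime y (M : ℤ)) with hY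
  have hmapY : ∀ y ∈ Y, (y % M2).toNat ∈ U := by
    intro y hy
    rw [hY, mem_filter] at hy
    rw [hU, mem_filter, mem_range]
    refine ⟨hlt _, hcopu _ ?_⟩
    exact IsCoprime.of_isCoprime_of_dvd_right hy.2.2 hdiv2
  have hfY := card_eq_sum_card_fiberwise hmapY
  have hfYu : ∀ u ∈ U, Y.filter (fun y : ℤ => (y % (M2 : ℤ)).toNat = u) =
      (Icc (1 : ℤ) M).filter fun y : ℤ => y ≡ rr u [ZMOD ((M2 * d : ℕ) : ℤ)] ∧
        IsCoprime y (q : ℤ) := by
    intro u hu
    rw [hU, mem_filter, mem_range] at hu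
    ext y
    rw [hY]
    simp only [mem_filter]
    constructor
    · rintro ⟨⟨h1, h2, h3⟩, h5⟩
      refine ⟨h1, ?_, IsCoprime.of_isCoprime_of_dvd_right h3 hdiv1⟩
      rw [← hrr u]
      refine ⟨?_, h2⟩
      rw [← h5]; exact hmodu _
    · rintro ⟨h1, h2, h3⟩
      rw [← hrr u] at h2
      have h4 : IsCoprime y (M2 : ℤ) := by
        have h5 := h2.1
        rw [Int.modEq_iff_dvd] at h5
        obtain ⟨k, hk⟩ := h5
        have h6 : y = (u : ℤ) + M2 * (-k) := by linarith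
        rw [h6]
        exact IsCoprime.add_mul_left_left (Nat.isCoprime_iff_coprime.2 hu.2) _
      refine ⟨⟨h1, h2.2, ?_⟩, ?_⟩
      · rw [hMdef]
        push_cast
        exact h3.mul_right h4
      · have h7 : (y % M2) = (u : ℤ) % M2 := h2.1
        rw [h7]
        have h8 : ((u : ℤ) % M2) = u := by
          apply Int.emod_eq_of_lt (by positivity)
          exact_mod_cast hu.1
        rw [h8]
        simp
  replace hfY : Y.card = ∑ u ∈ U, ((Icc (1 : ℤ) M).filter fun y : ℤ =>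
      y ≡ rr u [ZMOD ((M2 * d : ℕ) : ℤ)] ∧ IsCoprime y (q : ℤ)).card := by
    rw [hfY]
    exact sum_congr rfl (fun u hu => by rw [hfYu u hu])
  -- notation
  set cN : ℕ → ℝ := fun u => (((((Icc (1 : ℤ) M) ×ˢ (Icc (-(V : ℤ)) V)).filter fun z : ℤ × ℤ =>
        z.1 ≡ rr u [ZMOD ((M2 * d : ℕ) : ℤ)] ∧ z.2 ≡ tt u [ZMOD ((M2 * d : ℕ) : ℤ)] ∧
        z.1 * z.2 ≡ 1 [ZMOD q]).card : ℕ) : ℝ) with hcN
  set cY : ℕ → ℝ := fun u => (((Icc (1 : ℤ) M).filter fun y : ℤ =>
    y ≡ rr u [ZMOD ((M2 * d : ℕ) : ℤ)] ∧ IsCoprime y (q : ℤ)).card : ℝ) with hcY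
  set cT : ℕ → ℝ := fun u => (((Icc (-(V : ℤ)) V).filter fun s : ℤ =>
    s ≡ tt u [ZMOD ((M2 * d : ℕ) : ℤ)]).card : ℝ) with hcT
  have hSr : ((S.card : ℕ) : ℝ) = ∑ u ∈ U, cN u := by
    rw [hfib]; push_cast; rfl
  have hYr : ((Y.card : ℕ) : ℝ) = ∑ u ∈ U, cY u := by
    rw [hfY]; push_cast; rfl
  have hYM : ((Y.card : ℕ) : ℝ) ≤ M := by
    have h1 : Y.card ≤ (Icc (1 : ℤ) M).card := card_filter_le _ _
    have h2 : (Icc (1 : ℤ) (M : ℤ)).card = M := by simp
    rw [h2] at h1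
    exact_mod_cast h1
  have hcY0 : ∀ u, 0 ≤ cY u := fun u => by positivity
  have hUc : (U.card : ℝ) ≤ M2 := by
    have h1 : U.card ≤ (range M2).card := card_filter_le _ _
    rw [card_range] at h1
    exact_mod_cast h1
  have hRr : ((M2 * d : ℕ) : ℝ) = M2 * d := by push_cast; ring
  have hMr : (M : ℝ) = q * M2 := by rw [hMdef]; push_cast; ring
  have hlog : 0 ≤ Real.log q := Real.log_nonneg (by exact_mod_cast hM1)
  have hlogM : Real.log q ≤ Real.log ((M * d : ℕ) : ℝ) := by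
    apply Real.log_le_log hM1r
    have h1 : q ≤ M * d := by
      rw [hMdef]
      calc q = q * 1 * 1 := by ring
        _ ≤ q * M2 * d := Nat.mul_le_mul (Nat.mul_le_mul_left _ hM2) hd
    exact_mod_cast h1
  -- first comparison
  have hc1 : |((S.card : ℕ) : ℝ) - (2 * V + 1) / (M * d) * (Y.card : ℝ)| ≤ M2 * E + M2 := by
    have h1 : ((S.card : ℕ) : ℝ) - (2 * V + 1) / (M * d) * (Y.card : ℝ) =
        ∑ u ∈ U, ((cN u - cY u * cT u / q) + cY u / q * (cT u - (2 * V + 1) / (M2 * d))) := by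
      rw [hSr, hYr, mul_sum, ← sum_sub_distrib]
      apply sum_congr rfl
      intro u _
      rw [hMr]
      field_simp
      ring
    rw [h1]
    refine (abs_sum_le_sum_abs _ _).trans ?_
    have h2 : ∀ u ∈ U, |(cN u - cY u * cT u / q) + cY u / q * (cT u - (2 * V + 1) / (M2 * d))| ≤
        E + cY u / q := by
      intro u _
      refine (abs_add_le _ _).trans ?_
      apply add_le_add (hone u)
      rw [abs_mul, abs_of_nonneg (div_nonneg (hcY0 u) hM1r.le)]
      have h3 := hT u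
      rw [hRr] at h3
      calc cY u / q * _ ≤ cY u / q * 1 :=
            mul_le_mul_of_nonneg_left h3 (div_nonneg (hcY0 u) hM1r.le)
        _ = _ := mul_one _
    refine (sum_le_sum h2).trans ?_
    rw [sum_add_distrib, sum_const, nsmul_eq_mul, ← sum_div, ← hYr]
    have hE0 : 0 ≤ E := (abs_nonneg _).trans (hone 0)
    apply add_le_add
    · exact mul_le_mul_of_nonneg_right hUc hE0
    · rw [div_le_iff₀ hM1r]
      calc ((Y.card : ℕ) : ℝ) ≤ M := hYM
        _ = M2 * q := by rw [hMr]; ring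
  -- second comparison
  have hc2 := cop_card M d hM hd hMd y0
  rw [← hY] at hc2
  have hc3 : |(2 * V + 1) / (M * d) * (Y.card : ℝ) -
      (2 * V + 1) * (Nat.totient M : ℝ) / (M * (d : ℝ) ^ 2)| ≤
      (2 * V + 1) * (M.divisors.card : ℝ) / (M * (d : ℝ)) := by
    have hMr0 : (0 : ℝ) < M := by exact_mod_cast hM
    have h1 : (2 * V + 1) / (M * d) * (Y.card : ℝ) -
      (2 * V + 1) * (Nat.totient M : ℝ) / (M * (d : ℝ) ^ 2) =
      (2 * V + 1) / (M * d) * ((Y.card : ℝ) - (Nat.totient M : ℝ) / d) := by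
      field_simp
    rw [h1, abs_mul, abs_of_nonneg (by positivity)]
    calc _ ≤ (2 * V + 1) / (M * d) * (M.divisors.card : ℝ) :=
          mul_le_mul_of_nonneg_left hc2 (by positivity)
      _ = _ := by ring
  -- the bound for E
  have hτ1 : (1 : ℝ) ≤ q.divisors.card := by
    have : 0 < q.divisors.card := card_pos.2 ⟨1, by
      rw [Nat.mem_divisors]; exact ⟨one_dvd _, hM1.ne'⟩⟩
    exact_mod_cast this
  have hsq1 : 1 ≤ Real.sqrt q := by rw [Real.one_le_sqrt]; exact hM1r1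
  set T3 : ℝ := (q.divisors.card : ℝ) ^ 3 * Real.sqrt q *
    (Real.log ((M * d : ℕ) : ℝ) + 2) ^ 2 with hT3
  have hEle : E ≤ T3 := by
    have h1 : (((((M : ℤ) : ℝ) - ((1 : ℤ) : ℝ)) / ((M2 * d : ℕ) : ℝ) + 1) / q + 1 +
      Real.log q) ≤ 3 + Real.log q := by
      have h2 : ((((M : ℤ) : ℝ) - ((1 : ℤ) : ℝ)) / ((M2 * d : ℕ) : ℝ) + 1) / q ≤ 2 := by
        rw [div_le_iff₀ hM1r]
        have h3 : ((((M : ℤ) : ℝ) - ((1 : ℤ) : ℝ)) / ((M2 * d : ℕ) : ℝ)) ≤ q := by
          rw [div_le_iff₀ (by rw [hRr]; positivity), hRr]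
          have h4 : (((M : ℤ)) : ℝ) = q * M2 := by rw [Int.cast_natCast]; exact hMr
          rw [h4]
          push_cast
          have h5 : (q : ℝ) * M2 * 1 ≤ q * M2 * d :=
            mul_le_mul_of_nonneg_left hdr1 (by positivity)
          linarith
        linarith
      linarith
    have h0 : 0 ≤ (((((M : ℤ) : ℝ) - ((1 : ℤ) : ℝ)) / ((M2 * d : ℕ) : ℝ) + 1) / q + 1 +
      Real.log q) := by
      have h4 : (1 : ℝ) ≤ (((M : ℤ)) : ℝ) := by exact_mod_cast hM
      have : 0 ≤ (((M : ℤ) : ℝ) - ((1 : ℤ) : ℝ)) := by push_cast; push_cast at h4; linarith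
      positivity
    calc E = (2 ^ q.primeFactors.card * (q.divisors.card : ℝ) * Real.sqrt q) *
          ((1 + Real.log q) * (((((M : ℤ) : ℝ) - ((1 : ℤ) : ℝ)) / ((M2 * d : ℕ) : ℝ) + 1) / q +
            1 + Real.log q)) := by rw [hE]; ring
      _ ≤ ((q.divisors.card : ℝ) * (q.divisors.card : ℝ) * Real.sqrt q) *
          ((1 + Real.log q) * (3 + Real.log q)) := by
          apply mul_le_mul
          · apply mul_le_mul_of_nonneg_right _ (Real.sqrt_nonneg _)
            exact mul_le_mul_of_nonneg_right (two_pow_le q hM1.ne') (by positivity)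
          · exact mul_le_mul_of_nonneg_left h1 (by positivity)
          · positivity
          · positivity
      _ ≤ ((q.divisors.card : ℝ) ^ 3 * Real.sqrt q) *
          (Real.log ((M * d : ℕ) : ℝ) + 2) ^ 2 := by
          apply mul_le_mul
          · apply mul_le_mul_of_nonneg_right _ (Real.sqrt_nonneg _)
            calc (q.divisors.card : ℝ) * (q.divisors.card : ℝ) =
                (q.divisors.card : ℝ) ^ 2 := by ring
              _ ≤ (q.divisors.card : ℝ) ^ 3 := pow_le_pow_right₀ hτ1 (by norm_num)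
          · calc (1 + Real.log q) * (3 + Real.log q) ≤ (Real.log q + 2) ^ 2 := by
                  have : (1 + Real.log q) * (3 + Real.log q) = (Real.log q + 2) ^ 2 - 1 := by ring
                  linarith
              _ ≤ _ := pow_le_pow_left₀ (by linarith) (by linarith) 2
          · positivity
          · positivity
      _ = T3 := by rw [hT3]
  have hT31 : 1 ≤ T3 := by
    have h1 : (1 : ℝ) ≤ (q.divisors.card : ℝ) ^ 3 := one_le_pow₀ hτ1
    have h2 : (1 : ℝ) ≤ (Real.log ((M * d : ℕ) : ℝ) + 2) ^ 2 := by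
      apply one_le_pow₀
      linarith
    rw [hT3]
    calc (1 : ℝ) = 1 * 1 * 1 := by ring
      _ ≤ _ := mul_le_mul (mul_le_mul h1 hsq1 zero_le_one (by positivity)) h2 zero_le_one
            (by positivity)
  have hfinal : |((S.card : ℕ) : ℝ) - (2 * V + 1) * (Nat.totient M : ℝ) / (M * (d : ℝ) ^ 2)| ≤
      (M2 * E + M2) + (2 * V + 1) * (M.divisors.card : ℝ) / (M * (d : ℝ)) := by
    refine (abs_sub_le _ ((2 * V + 1) / (M * d) * (Y.card : ℝ)) _).trans ?_
    exact add_le_add hc1 hc3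
  refine hfinal.trans ?_
  have h9 : M2 * E + M2 ≤ 2 * M2 * (q.divisors.card : ℝ) ^ 3 * Real.sqrt q *
    (Real.log ((M * d : ℕ) : ℝ) + 2) ^ 2 := by
    calc M2 * E + M2 ≤ M2 * T3 + M2 * T3 := by
          apply add_le_add
          · exact mul_le_mul_of_nonneg_left hEle hM2r.le
          · calc (M2 : ℝ) = M2 * 1 := (mul_one _).symm
              _ ≤ M2 * T3 := mul_le_mul_of_nonneg_left hT31 hM2r.le
      _ = _ := by rw [hT3]; ring
  linarith

end Pool.Agent.D0H65.LP
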