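import Pool.Agent.H442R2.KF.Inc

/-!
# Kloosterman sums with a general coefficient, and the hyperbola in a residue class
-/

set_option autoImplicit false

namespace Pool.Agent.D0H65.LP

open Finset Pool.Agent.H442R2.KF Pool.Agent.H442R2.KF.TaskB

theorem Kl_triv (q : ℕ) [NeZero q] (w c : ZMod q) : ‖Kl q w c‖ ≤ q := by
  unfold Kl
  refine (norm_sum_le _ _).trans ?_
  have h2 : ∀ u : (ZMod q)ˣ, ‖(ZMod.stdAddChar (w * (u : ZMod q) +
      c * ((u⁻¹ : (ZMod q)ˣ) : ZMod q)) : ℂ)‖ ≤ 1 := by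
    intro u
    rw [ZMod.stdAddChar_apply]
    exact (Circle.norm_coe _).le
  refine (Finset.sum_le_sum fun u _ => h2 u).trans ?_
  rw [Finset.sum_const, Finset.card_univ, ZMod.card_units_eq_totient, nsmul_eq_mul, mul_one]
  exact_mod_cast Nat.totient_le q

/-- Kloosterman sums with a general second coefficient -/
theorem Kl_gen (q : ℕ) : ∀ [NeZero q], Squarefree q → ∀ w c : ℤ, ∃ g : ℕ, g ∣ q ∧ (g : ℤ) ∣ c ∧
    ‖Kl q (w : ZMod q) (c : ZMod q)‖ ≤ 2 ^ q.primeFactors.card * Real.sqrt q * Real.sqrt g := by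
  induction q using Nat.strong_induction_on with
  | _ q ih =>
    intro _ hq w c
    by_cases h1 : q = 1
    · subst h1
      refine ⟨1, dvd_rfl, by simp, ?_⟩
      refine (Kl_triv 1 _ _).trans ?_
      simp
    · have hq0 : q ≠ 0 := NeZero.ne q
      have hp : (q.minFac).Prime := Nat.minFac_prime h1
      obtain ⟨q', hq'⟩ := Nat.minFac_dvd q
      generalize q.minFac = p at hp hq'
      subst hq'
      have : Fact p.Prime := ⟨hp⟩
      have hq'0 : q' ≠ 0 := fun h => hq0 (by rw [h, mul_zero])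
      have : NeZero q' := ⟨hq'0⟩
      have hcop : Nat.Coprime p q' := Nat.coprime_of_squarefree_mul hq
      have hsq' : Squarefree q' := hq.squarefree_of_dvd (Dvd.intro_left p rfl)
      obtain ⟨α, β, hαβ⟩ : ∃ α β : ℤ, α * q' + β * p = 1 := by
        have h2 : IsCoprime (q' : ℤ) (p : ℤ) := Nat.isCoprime_iff_coprime.mpr hcop.symm
        obtain ⟨a, b, hab⟩ := h2
        exact ⟨a, b, hab⟩
      have hlt : q' < p * q' := by
        have := hp.two_le
        have h3 : 0 < q' := Nat.pos_of_ne_zero hq'0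
        nlinarith
      have e1 : ∀ x : ℤ, (ZMod.chineseRemainder hcop ((x : ℤ) : ZMod (p * q'))).1 =
          ((x : ℤ) : ZMod p) := by
        intro x; rw [map_intCast]; rfl
      have e2 : ∀ x : ℤ, (ZMod.chineseRemainder hcop ((x : ℤ) : ZMod (p * q'))).2 =
          ((x : ℤ) : ZMod q') := by
        intro x; rw [map_intCast]; rfl
      rw [Kl_mul p q' hcop α β hαβ, norm_mul, e1, e1, e2, e2]
      -- the prime factor
      obtain ⟨g1, hg1, hg1c, b1⟩ : ∃ g1 : ℕ, g1 ∣ p ∧ (g1 : ℤ) ∣ c ∧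
          ‖Kl p ((α : ZMod p) * (w : ZMod p)) ((α : ZMod p) * (c : ZMod p))‖ ≤
            2 * Real.sqrt p * Real.sqrt g1 := by
        by_cases hc : (c : ZMod p) = 0
        · refine ⟨p, dvd_rfl, (ZMod.intCast_zmod_eq_zero_iff_dvd c p).1 hc, ?_⟩
          refine (Kl_triv p _ _).trans ?_
          rw [mul_assoc, Real.mul_self_sqrt (by positivity)]
          have : (0 : ℝ) ≤ p := by positivity
          linarith
        · refine ⟨1, one_dvd _, by simp, ?_⟩
          have hα : IsUnit ((α : ℤ) : ZMod p) := unit_of_bezout p q' α β hαβ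
          have hcu : IsUnit (c : ZMod p) := IsUnit.mk0 _ hc
          have := Kl_prime p ((α : ZMod p) * (w : ZMod p)) ((α : ZMod p) * (c : ZMod p))
            (hα.mul hcu)
          simpa using this
      obtain ⟨g2, hg2, hg2c, b2⟩ := ih q' hlt hsq' (β * w) (β * c)
      rw [Int.cast_mul, Int.cast_mul] at b2
      have hg2c' : (g2 : ℤ) ∣ c := by
        have h3 : IsCoprime (g2 : ℤ) β := by
          obtain ⟨k, hk⟩ := hg2
          refine ⟨α * k, p, ?_⟩
          rw [hk] at hαβ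
          push_cast at hαβ
          linarith
        exact h3.dvd_of_dvd_mul_left hg2c
      refine ⟨g1 * g2, Nat.mul_dvd_mul hg1 hg2, ?_, ?_⟩
      · have h3 : IsCoprime (g1 : ℤ) (g2 : ℤ) := by
          rw [Nat.isCoprime_iff_coprime]
          exact Nat.Coprime.of_dvd hg1 hg2 hcop
        push_cast
        exact h3.mul_dvd hg1c hg2c'
      · have hcard : (p * q').primeFactors.card = 1 + q'.primeFactors.card := by
          rw [hcop.primeFactors_mul, Finset.card_union_of_disjoint hcop.disjoint_primeFactors,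
            hp.primeFactors, Finset.card_singleton]
        rw [hcard, Nat.cast_mul, Nat.cast_mul, Real.sqrt_mul (by positivity),
          Real.sqrt_mul (by positivity)]
        calc _ ≤ (2 * Real.sqrt p * Real.sqrt g1) *
              (2 ^ q'.primeFactors.card * Real.sqrt q' * Real.sqrt g2) :=
              mul_le_mul b1 b2 (norm_nonneg _) (by positivity)
          _ = _ := by rw [pow_add]; ring

theorem Kl_gcd (q : ℕ) [NeZero q] (hq : Squarefree q) (w c : ℤ) :
    ‖Kl q (w : ZMod q) (c : ZMod q)‖ ≤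
      2 ^ q.primeFactors.card * Real.sqrt q * Real.sqrt (Int.gcd c q) := by
  obtain ⟨g, h1, h2, h3⟩ := Kl_gen q hq w c
  refine h3.trans ?_
  apply mul_le_mul_of_nonneg_left _ (by positivity)
  apply Real.sqrt_le_sqrt
  have h4 : g ∣ Int.gcd c q := by
    apply Int.dvd_gcd h2
    exact_mod_cast h1
  have h5 : 0 < Int.gcd c q := Int.gcd_pos_of_ne_zero_right _ (by
    have := NeZero.ne q
    exact_mod_cast this)
  exact_mod_cast Nat.le_of_dvd h5 h4

/-- the character of the inverse -/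
noncomputable def phi (q : ℕ) [NeZero q] (c : ZMod q) (u : ZMod q) : ℂ := by
  classical
  exact if IsUnit u then (ZMod.stdAddChar (c * u⁻¹) : ℂ) else 0

theorem compl (q R : ℕ) [NeZero q] (hq : Squarefree q) (hqR : Nat.Coprime q R) (c : ℤ)
    (m₀ : ℤ) (H : ℕ) :
    ‖∑ k ∈ range H, phi q (c : ZMod q) (((m₀ + R * k : ℤ)) : ZMod q)‖ ≤
      2 ^ q.primeFactors.card * Real.sqrt q * Real.sqrt (Int.gcd c q) *
        ((H : ℝ) / q + 1 + Real.log q) := by
  classical
  have hW : ∀ w : ZMod q, ‖∑ u : ZMod q, ZMod.stdAddChar (-(u * w)) * phi q (c : ZMod q) u‖ ≤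
      2 ^ q.primeFactors.card * Real.sqrt q * Real.sqrt (Int.gcd c q) := by
    intro w
    have h2 : ∑ u : ZMod q, ZMod.stdAddChar (-(u * w)) * phi q (c : ZMod q) u =
        ∑ u : (ZMod q)ˣ, ZMod.stdAddChar (-w * (u : ZMod q) +
          (c : ZMod q) * ((u⁻¹ : (ZMod q)ˣ) : ZMod q)) := by
      have h3 : ∑ u : ZMod q, ZMod.stdAddChar (-(u * w)) * phi q (c : ZMod q) u =
          ∑ u ∈ univ.filter (fun u : ZMod q => IsUnit u),
            ZMod.stdAddChar (-(u * w)) * ZMod.stdAddChar ((c : ZMod q) * u⁻¹) := by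
        rw [sum_filter]
        apply sum_congr rfl
        intro u _
        unfold phi
        split_ifs with h
        · rfl
        · rw [mul_zero]
      rw [h3]
      symm
      refine sum_bij (fun (u : (ZMod q)ˣ) _ => (u : ZMod q)) ?_ ?_ ?_ ?_
      · intro u _
        rw [mem_filter]
        exact ⟨mem_univ _, u.isUnit⟩
      · intro a _ b _ hab
        exact Units.ext hab
      · intro b hb
        rw [mem_filter] at hb
        exact ⟨hb.2.unit, mem_univ _, rfl⟩
      · intro u _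
        rw [AddChar.map_add_eq_mul]
        congr 2
        · ring
        · rw [ZMod.inv_coe_unit]
    rw [h2]
    obtain ⟨j, hj⟩ := ZMod.intCast_surjective (-w)
    have := Kl_gcd q hq j c
    rw [hj] at this
    exact this
  exact Inc.completion q R hqR _ _ (by positivity) hW m₀ H

/-- the sum over the frequencies -/
theorem gcd_sum (q : ℕ) (hq : 0 < q) :
    ∑ v ∈ Ico 1 q, (1 / (v : ℝ) + 1 / ((q : ℝ) - v)) * Real.sqrt (Nat.gcd v q) ≤
      2 * (q.divisors.card : ℝ) * (1 + Real.log q) := by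
  have hlog : 0 ≤ Real.log q := Real.log_nonneg (by exact_mod_cast hq)
  -- reflection
  have h1 : ∑ v ∈ Ico 1 q, (1 / ((q : ℝ) - v)) * Real.sqrt (Nat.gcd v q) =
      ∑ v ∈ Ico 1 q, (1 / (v : ℝ)) * Real.sqrt (Nat.gcd v q) := by
    refine sum_bij' (fun v _ => q - v) (fun v _ => q - v) ?_ ?_ ?_ ?_ ?_
    · intro v hv; rw [mem_Ico] at *; omega
    · intro v hv; rw [mem_Ico] at *; omega
    · intro v hv; rw [mem_Ico] at *; show q - (q - v) = v; omega
    · intro v hv; rw [mem_Ico] at *; show q - (q - v) = v; omega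
    · intro v hv
      rw [mem_Ico] at hv
      rw [Nat.cast_sub hv.2.le]
      congr 3
      have h2 := Nat.gcd_sub_self_left hv.2.le (n := q)
      rw [Nat.gcd_comm v q, Nat.gcd_comm (q - v) q]
      conv_rhs => rw [Nat.gcd_comm]
      have h3 : Nat.gcd (q - v) q = Nat.gcd v q := by
        apply Nat.dvd_antisymm
        · apply Nat.dvd_gcd _ (Nat.gcd_dvd_right _ _)
          have h4 := Nat.gcd_dvd_left (q - v) q
          have h5 := Nat.gcd_dvd_right (q - v) q
          have h6 := Nat.dvd_sub h5 h4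
          have h7 : q - (q - v) = v := by omega
          rwa [h7] at h6
        · apply Nat.dvd_gcd _ (Nat.gcd_dvd_right _ _)
          exact Nat.dvd_sub (Nat.gcd_dvd_right _ _) (Nat.gcd_dvd_left _ _)
      rw [h3, Nat.gcd_comm]
  have h2 : ∑ v ∈ Ico 1 q, (1 / (v : ℝ)) * Real.sqrt (Nat.gcd v q) ≤
      (q.divisors.card : ℝ) * (1 + Real.log q) := by
    have h3 : ∀ v ∈ Ico 1 q, (1 / (v : ℝ)) * Real.sqrt (Nat.gcd v q) ≤
        ∑ g ∈ q.divisors, if g ∣ v then Real.sqrt g / v else 0 := by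
      intro v hv
      have hmem : Nat.gcd v q ∈ q.divisors := by
        rw [Nat.mem_divisors]; exact ⟨Nat.gcd_dvd_right _ _, hq.ne'⟩
      calc (1 / (v : ℝ)) * Real.sqrt (Nat.gcd v q) =
          (if Nat.gcd v q ∣ v then Real.sqrt (Nat.gcd v q) / v else 0) := by
            rw [if_pos (Nat.gcd_dvd_left _ _)]; ring
        _ ≤ _ := single_le_sum (f := fun g : ℕ => if g ∣ v then Real.sqrt g / v else 0)
            (fun g _ => by
              show 0 ≤ if g ∣ v then Real.sqrt g / v else 0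
              split_ifs <;> positivity) hmem
    refine (sum_le_sum h3).trans ?_
    rw [sum_comm]
    have h4 : ∀ g ∈ q.divisors, ∑ v ∈ Ico 1 q, (if g ∣ v then Real.sqrt g / v else 0) ≤
        1 + Real.log q := by
      intro g hg
      have hg0 : 0 < g := Nat.pos_of_mem_divisors hg
      have hgr : (1 : ℝ) ≤ g := by exact_mod_cast hg0
      have h5 : ∑ v ∈ Ico 1 q, (if g ∣ v then Real.sqrt g / v else 0) ≤
          ∑ k ∈ Icc 1 q, ((k : ℝ))⁻¹ := by
        rw [← sum_filter]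
        have h6 : (Ico 1 q).filter (fun v => g ∣ v) ⊆ (Icc 1 q).image (fun k => g * k) := by
          intro v hv
          rw [mem_filter, mem_Ico] at hv
          obtain ⟨⟨hv1, hv2⟩, k, rfl⟩ := hv
          rw [mem_image]
          refine ⟨k, ?_, rfl⟩
          rw [mem_Icc]
          constructor
          · rcases Nat.eq_zero_or_pos k with h | h
            · subst h; omega
            · exact h
          · nlinarith
        refine (sum_le_sum_of_subset_of_nonneg h6 (fun v _ _ => by positivity)).trans ?_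
        rw [sum_image (fun a _ b _ hab => Nat.eq_of_mul_eq_mul_left hg0 hab)]
        apply sum_le_sum
        intro k hk
        rw [mem_Icc] at hk
        have hk0 : (0 : ℝ) < k := by exact_mod_cast hk.1
        rw [Nat.cast_mul, div_le_iff₀ (by positivity)]
        have h7 : Real.sqrt g ≤ g := by
          rw [Real.sqrt_le_left (by positivity)]
          nlinarith
        calc Real.sqrt g ≤ g := h7
          _ = (k : ℝ)⁻¹ * (g * k) := by field_simp
      refine h5.trans ?_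
      have h6 := harmonic_le_one_add_log q
      rw [harmonic_eq_sum_Icc] at h6
      push_cast at h6
      exact h6
    calc _ ≤ ∑ g ∈ q.divisors, (1 + Real.log q) := sum_le_sum h4
      _ = _ := by rw [sum_const, nsmul_eq_mul]
  have h3 : ∑ v ∈ Ico 1 q, (1 / (v : ℝ) + 1 / ((q : ℝ) - v)) * Real.sqrt (Nat.gcd v q) =
      ∑ v ∈ Ico 1 q, (1 / (v : ℝ)) * Real.sqrt (Nat.gcd v q) +
      ∑ v ∈ Ico 1 q, (1 / ((q : ℝ) - v)) * Real.sqrt (Nat.gcd v q) := by
    rw [← sum_add_distrib]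
    exact sum_congr rfl (fun v _ => by ring)
  rw [h3, h1]
  linarith

theorem val_gcd (q R : ℕ) [NeZero q] (hqR : Nat.Coprime q R) (b : ZMod q) :
    Nat.gcd (b * (R : ZMod q)).val q = Nat.gcd b.val q := by
  rw [ZMod.val_mul, ZMod.val_natCast]
  have h1 : Nat.gcd (b.val * (R % q) % q) q = Nat.gcd (b.val * R) q := by
    rw [← Nat.gcd_rec, Nat.gcd_comm q]
    have h2 : b.val * (R % q) ≡ b.val * R [MOD q] := (Nat.mod_modEq R q).mul_left _
    exact h2.gcd_eq
  rw [h1]
  exact Nat.Coprime.gcd_mul_right_cancel _ hqR.symm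

/-- **one residue class** -/
theorem one_class (q R : ℕ) (hq : Squarefree q) (hq0 : 0 < q) (hR : 0 < R)
    (hqR : Nat.Coprime q R) (r t A B A' B' : ℤ) (hAB : A ≤ B) (hAB' : A' ≤ B') :
    |(((((Icc A B) ×ˢ (Icc A' B')).filter fun z : ℤ × ℤ => z.1 ≡ r [ZMOD R] ∧ z.2 ≡ t [ZMOD R] ∧
        z.1 * z.2 ≡ 1 [ZMOD q]).card : ℕ) : ℝ) -
      (((Icc A B).filter fun y : ℤ => y ≡ r [ZMOD R] ∧ IsCoprime y (q : ℤ)).card : ℝ) *
        (((Icc A' B').filter fun s : ℤ => s ≡ t [ZMOD R]).card : ℝ) / q| ≤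
      2 ^ q.primeFactors.card * (q.divisors.card : ℝ) * Real.sqrt q * (1 + Real.log q) *
        ((((B : ℝ) - A) / R + 1) / q + 1 + Real.log q) := by
  classical
  have : NeZero q := ⟨hq0.ne'⟩
  have hqr : (0 : ℝ) < q := by exact_mod_cast hq0
  have hqc : (q : ℂ) ≠ 0 := by exact_mod_cast hq0.ne'
  obtain ⟨m₀, H, hH, hS⟩ := Inc.prog R hR r A B hAB
  obtain ⟨m₁, H', hH', hS'⟩ := Inc.prog R hR t A' B' hAB'
  set Y := (Icc A B).filter (fun y : ℤ => y ≡ r [ZMOD R] ∧ IsCoprime y (q : ℤ)) with hY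
  set T := (Icc A' B').filter (fun s : ℤ => s ≡ t [ZMOD R]) with hT
  have hunit : ∀ m : ℤ, IsCoprime m (q : ℤ) ↔ IsUnit (m : ZMod q) := by
    intro m
    rw [ZMod.coe_int_isUnit_iff_isCoprime, isCoprime_comm]
  -- the count as a double sum
  have hcount : (((((Icc A B) ×ˢ (Icc A' B')).filter fun z : ℤ × ℤ => z.1 ≡ r [ZMOD R] ∧
      z.2 ≡ t [ZMOD R] ∧ z.1 * z.2 ≡ 1 [ZMOD q]).card : ℕ) : ℂ) =
      ∑ y ∈ Y, ∑ s ∈ T, if ((s : ZMod q) - (y : ZMod q)⁻¹ = 0) then (1 : ℂ) else 0 := by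
    rw [← sum_product', ← sum_filter, sum_const, nsmul_eq_mul, mul_one]
    congr 2
    ext ⟨y, s⟩
    simp only [mem_filter, mem_product, hY, hT, mem_Icc]
    constructor
    · rintro ⟨⟨h1, h2⟩, h3, h4, h5⟩
      have h6 : (y : ZMod q) * (s : ZMod q) = 1 := by
        have := (ZMod.intCast_eq_intCast_iff _ _ _).2 h5
        push_cast at this
        exact this
      have hu : IsUnit (y : ZMod q) := IsUnit.of_mul_eq_one _ h6
      refine ⟨⟨⟨h1, h3, (hunit y).2 hu⟩, h2, h4⟩, ?_⟩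
      rw [sub_eq_zero]
      calc (s : ZMod q) = (y : ZMod q)⁻¹ * ((y : ZMod q) * s) := by
            rw [← mul_assoc, ZMod.inv_mul_of_unit _ hu, one_mul]
        _ = _ := by rw [h6, mul_one]
    · rintro ⟨⟨⟨h1, h3, h7⟩, h2, h4⟩, h8⟩
      refine ⟨⟨h1, h2⟩, h3, h4, ?_⟩
      have hu : IsUnit (y : ZMod q) := (hunit y).1 h7
      rw [sub_eq_zero] at h8
      apply (ZMod.intCast_eq_intCast_iff _ _ _).1
      push_cast
      rw [h8, ZMod.mul_inv_of_unit _ hu]
  have hF : ∀ x : ZMod q, (if x = 0 then (1 : ℂ) else 0) =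
      (q : ℂ)⁻¹ * ∑ b : ZMod q, ZMod.stdAddChar (b * x) := by
    intro x
    rw [AddChar.sum_mulShift x (ZMod.isPrimitive_stdAddChar q), ZMod.card]
    split_ifs with h
    · field_simp
    · simp
  set a : ZMod q → ℂ := fun b => ∑ s ∈ T, ZMod.stdAddChar (b * (s : ZMod q)) with ha
  set f : ZMod q → ℂ := fun b => ∑ y ∈ Y, ZMod.stdAddChar (-b * (y : ZMod q)⁻¹) with hf
  have hcount2 : (((((Icc A B) ×ˢ (Icc A' B')).filter fun z : ℤ × ℤ => z.1 ≡ r [ZMOD R] ∧
      z.2 ≡ t [ZMOD R] ∧ z.1 * z.2 ≡ 1 [ZMOD q]).card : ℕ) : ℂ) =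
      (q : ℂ)⁻¹ * ∑ b : ZMod q, a b * f b := by
    rw [hcount]
    simp_rw [hF]
    have : ∀ b : ZMod q, a b * f b = ∑ y ∈ Y, ∑ s ∈ T,
        ZMod.stdAddChar (b * ((s : ZMod q) - (y : ZMod q)⁻¹)) := by
      intro b
      rw [ha, hf]
      simp only
      rw [mul_comm, sum_mul_sum]
      apply sum_congr rfl
      intro y _
      apply sum_congr rfl
      intro s _
      rw [← AddChar.map_add_eq_mul]
      congr 1
      ring
    simp_rw [this]
    have e1 : ∀ y ∈ Y, ∑ s ∈ T, (q : ℂ)⁻¹ * ∑ b : ZMod q,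
        (ZMod.stdAddChar (b * ((s : ZMod q) - (y : ZMod q)⁻¹)) : ℂ) =
        ∑ b : ZMod q, (q : ℂ)⁻¹ * ∑ s ∈ T,
          (ZMod.stdAddChar (b * ((s : ZMod q) - (y : ZMod q)⁻¹)) : ℂ) := by
      intro y _
      simp_rw [mul_sum]
      exact sum_comm
    rw [sum_congr rfl e1, sum_comm, mul_sum]
    apply sum_congr rfl
    intro b _
    rw [mul_sum]
  have h0 : a 0 * f 0 = (Y.card : ℂ) * (T.card : ℂ) := by
    rw [ha, hf]
    simp
    ring
  rw [← add_sum_erase univ _ (mem_univ (0 : ZMod q)), h0] at hcount2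
  have hdiff : ((((((Icc A B) ×ˢ (Icc A' B')).filter fun z : ℤ × ℤ => z.1 ≡ r [ZMOD R] ∧
      z.2 ≡ t [ZMOD R] ∧ z.1 * z.2 ≡ 1 [ZMOD q]).card : ℕ) : ℝ) -
      (Y.card : ℝ) * (T.card : ℝ) / q : ℝ) =
      ((q : ℂ)⁻¹ * ∑ b ∈ univ.erase (0 : ZMod q), a b * f b) := by
    push_cast
    rw [hcount2]
    field_simp
    ring
  have habs : |(((((Icc A B) ×ˢ (Icc A' B')).filter fun z : ℤ × ℤ => z.1 ≡ r [ZMOD R] ∧
      z.2 ≡ t [ZMOD R] ∧ z.1 * z.2 ≡ 1 [ZMOD q]).card : ℕ) : ℝ) -
      (Y.card : ℝ) * (T.card : ℝ) / q| =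
      ‖(q : ℂ)⁻¹ * ∑ b ∈ univ.erase (0 : ZMod q), a b * f b‖ := by
    rw [← hdiff, Complex.norm_real, Real.norm_eq_abs]
  rw [habs, norm_mul, norm_inv, Complex.norm_natCast]
  set D : ℝ := 2 ^ q.primeFactors.card * Real.sqrt q with hD
  have hD0 : 0 ≤ D := by positivity
  set L : ℝ := (((B : ℝ) - A) / R + 1) / q + 1 + Real.log q with hL
  have hlog : 0 ≤ Real.log q := Real.log_nonneg (by exact_mod_cast hq0)
  have hHL : (H : ℝ) / q + 1 + Real.log q ≤ L := by
    have : (H : ℝ) / q ≤ (((B : ℝ) - A) / R + 1) / q :=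
      div_le_div_of_nonneg_right hH hqr.le
    rw [hL]; linarith
  have hL0 : 0 ≤ L := le_trans (by positivity) hHL
  -- the sum over s
  have hinj : ∀ m : ℤ, Set.InjOn (fun k : ℕ => m + (R : ℤ) * k) (range H : Set ℕ) := by
    intro m x _ y _ hxy
    simp only at hxy
    have h2 : (R : ℤ) * x = R * y := by linarith
    have h3 : (R : ℤ) ≠ 0 := by exact_mod_cast hR.ne'
    exact_mod_cast mul_left_cancel₀ h3 h2
  have hinj' : ∀ m : ℤ, Set.InjOn (fun k : ℕ => m + (R : ℤ) * k) (range H' : Set ℕ) := by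
    intro m x _ y _ hxy
    simp only at hxy
    have h2 : (R : ℤ) * x = R * y := by linarith
    have h3 : (R : ℤ) ≠ 0 := by exact_mod_cast hR.ne'
    exact_mod_cast mul_left_cancel₀ h3 h2
  have ha1 : ∀ b : ZMod q, ‖a b‖ =
      ‖∑ k ∈ range H', ZMod.stdAddChar ((b * (R : ZMod q)) * (k : ZMod q))‖ := by
    intro b
    have : a b = ZMod.stdAddChar (b * (m₁ : ZMod q)) *
        ∑ k ∈ range H', ZMod.stdAddChar ((b * (R : ZMod q)) * (k : ZMod q)) := by
      rw [ha]
      simp only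
      rw [hS', sum_image (hinj' m₁), mul_sum]
      apply sum_congr rfl
      intro k _
      rw [← AddChar.map_add_eq_mul]
      congr 1
      push_cast
      ring
    rw [this, norm_mul, AddChar.norm_apply, one_mul]
  have hf1 : ∀ b : ZMod q, ‖f b‖ ≤ D * Real.sqrt (Nat.gcd b.val q) * L := by
    intro b
    have h1 : f b = ∑ k ∈ range H, phi q ((-(b.val : ℤ) : ℤ) : ZMod q)
        (((m₀ + R * k : ℤ)) : ZMod q) := by
      rw [hf]
      simp only
      rw [hY, ← filter_filter, sum_filter, hS, sum_image (hinj m₀)]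
      apply sum_congr rfl
      intro k _
      unfold phi
      have hb : ((-(b.val : ℤ) : ℤ) : ZMod q) = -b := by
        push_cast
        rw [ZMod.natCast_zmod_val]
      rw [hb]
      by_cases h : IsCoprime (m₀ + R * (k : ℤ)) (q : ℤ)
      · rw [if_pos h, if_pos ((hunit _).1 h)]
      · rw [if_neg h, if_neg (fun h' => h ((hunit _).2 h'))]
    rw [h1]
    refine (compl q R hq hqR _ m₀ H).trans ?_
    have h2 : Int.gcd (-(b.val : ℤ)) q = Nat.gcd b.val q := by
      rw [Int.neg_gcd, Int.gcd_natCast_natCast]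
    rw [h2]
    exact mul_le_mul_of_nonneg_left hHL (by positivity)
  have hsum : ‖∑ b ∈ univ.erase (0 : ZMod q), a b * f b‖ ≤
      ∑ b ∈ univ.erase (0 : ZMod q), ((q : ℝ) / 2 * (1 / ((b * (R : ZMod q)).val : ℝ) +
        1 / ((q : ℝ) - (b * (R : ZMod q)).val))) *
          (D * Real.sqrt (Nat.gcd (b * (R : ZMod q)).val q) * L) := by
    refine (norm_sum_le _ _).trans ?_
    apply sum_le_sum
    intro b hb
    rw [norm_mul]
    have hRu : IsUnit (R : ZMod q) := (ZMod.isUnit_iff_coprime R q).2 hqR.symm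
    have hne : b * (R : ZMod q) ≠ 0 := by
      intro h
      exact ne_of_mem_erase hb (by rwa [hRu.mul_left_eq_zero] at h)
    have h1 : ‖a b‖ ≤ (q : ℝ) / 2 * (1 / ((b * (R : ZMod q)).val : ℝ) +
        1 / ((q : ℝ) - (b * (R : ZMod q)).val)) := by
      rw [ha1]
      exact Inc.geom q _ hne H'
    have h2 := hf1 b
    rw [← val_gcd q R hqR b] at h2
    exact mul_le_mul h1 h2 (norm_nonneg _) ((norm_nonneg _).trans h1)
  -- reindexing
  have hre : ∑ b ∈ univ.erase (0 : ZMod q), ((q : ℝ) / 2 * (1 / ((b * (R : ZMod q)).val : ℝ) +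
        1 / ((q : ℝ) - (b * (R : ZMod q)).val))) *
          (D * Real.sqrt (Nat.gcd (b * (R : ZMod q)).val q) * L) =
      ∑ v ∈ Ico 1 q, ((q : ℝ) / 2 * (1 / (v : ℝ) + 1 / ((q : ℝ) - v))) *
          (D * Real.sqrt (Nat.gcd v q) * L) := by
    have hRu : IsUnit (R : ZMod q) := (ZMod.isUnit_iff_coprime R q).2 hqR.symm
    refine sum_bij' (fun b _ => (b * (R : ZMod q)).val)
      (fun v _ => (v : ZMod q) * (R : ZMod q)⁻¹) ?_ ?_ ?_ ?_ ?_
    · intro b hb
      have hne : b * (R : ZMod q) ≠ 0 := by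
        intro h
        exact ne_of_mem_erase hb (by rwa [hRu.mul_left_eq_zero] at h)
      rw [mem_Ico]
      refine ⟨?_, ZMod.val_lt _⟩
      rcases Nat.eq_zero_or_pos (b * (R : ZMod q)).val with h | h
      · exact absurd ((ZMod.val_eq_zero _).1 h) hne
      · exact h
    · intro v hv
      rw [mem_Ico] at hv
      rw [mem_erase]
      refine ⟨?_, mem_univ _⟩
      intro h
      have h2 : (v : ZMod q) = 0 := by
        have h3 : (v : ZMod q) * (R : ZMod q)⁻¹ * (R : ZMod q) = 0 := by rw [h, zero_mul]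
        rwa [mul_assoc, ZMod.inv_mul_of_unit _ hRu, mul_one] at h3
      rw [ZMod.natCast_eq_zero_iff] at h2
      have := Nat.le_of_dvd (by omega) h2
      omega
    · intro b hb
      show (((b * (R : ZMod q)).val : ℕ) : ZMod q) * (R : ZMod q)⁻¹ = b
      rw [ZMod.natCast_zmod_val, mul_assoc, ZMod.mul_inv_of_unit _ hRu, mul_one]
    · intro v hv
      rw [mem_Ico] at hv
      show ((v : ZMod q) * (R : ZMod q)⁻¹ * (R : ZMod q)).val = v
      rw [mul_assoc, ZMod.inv_mul_of_unit _ hRu, mul_one, ZMod.val_natCast_of_lt hv.2]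
    · intro b hb
      rfl
  rw [hre] at hsum
  have hfin : ∑ v ∈ Ico 1 q, ((q : ℝ) / 2 * (1 / (v : ℝ) + 1 / ((q : ℝ) - v))) *
          (D * Real.sqrt (Nat.gcd v q) * L) =
      (q : ℝ) / 2 * D * L *
        ∑ v ∈ Ico 1 q, (1 / (v : ℝ) + 1 / ((q : ℝ) - v)) * Real.sqrt (Nat.gcd v q) := by
    rw [mul_sum]
    exact sum_congr rfl (fun v _ => by ring)
  rw [hfin] at hsum
  calc (q : ℝ)⁻¹ * ‖∑ b ∈ univ.erase (0 : ZMod q), a b * f b‖ ≤
      (q : ℝ)⁻¹ * ((q : ℝ) / 2 * D * L * (2 * (q.divisors.card : ℝ) * (1 + Real.log q))) := by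
        apply mul_le_mul_of_nonneg_left _ (by positivity)
        refine hsum.trans ?_
        exact mul_le_mul_of_nonneg_left (gcd_sum q hq0) (by positivity)
    _ = _ := by
        rw [hD]
        field_simp

end Pool.Agent.D0H65.LP
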