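import Pool.Agent.H373R2.T7.Fund
import Pool.Agent.D0H41.LP.Stm

/-!
# LP, module SIV: the sifted set, and the sifted set in a class modulo a prime
-/

set_option autoImplicit false

namespace Pool.Agent.D0H65.LP

open Finset Pool.Agent.D0H41.LP Pool.Agent.H373R2.T7

/-- an affine substitution does not change the number of classes -/
theorem nu_affine (q p ν : ℕ) (hq : 0 < q) (h : Nat.Coprime p q) (f : ℕ → Prop) [DecidablePred f]
    (hf : ∀ n, f n ↔ f (n % q)) :
    ((range q).filter (fun r => f (ν + p * r))).card = ((range q).filter f).card := by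
  classical
  have hinj : ∀ a ∈ range q, ∀ b ∈ range q, (ν + p * a) % q = (ν + p * b) % q → a = b := by
    intro a ha b hb hab
    rw [mem_range] at ha hb
    have h1 : ν + p * a ≡ ν + p * b [MOD q] := hab
    have h2 : p * a ≡ p * b [MOD q] := Nat.ModEq.add_left_cancel' _ h1
    have h3 : a ≡ b [MOD q] := Nat.ModEq.cancel_left_of_coprime (by rw [Nat.gcd_comm]; exact h) h2
    exact Nat.ModEq.eq_of_lt_of_lt h3 ha hb
  have himg : (range q).image (fun r => (ν + p * r) % q) = range q := by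
    apply eq_of_subset_of_card_le
    · intro x hx
      rw [mem_image] at hx
      obtain ⟨r, _, rfl⟩ := hx
      rw [mem_range]
      exact Nat.mod_lt _ hq
    · rw [card_image_of_injOn (fun a ha b hb hab => hinj a (by simpa using ha) b
        (by simpa using hb) hab)]
  refine card_bij (fun r _ => (ν + p * r) % q) ?_ ?_ ?_
  · intro r hr
    rw [mem_filter] at hr ⊢
    refine ⟨mem_range.2 (Nat.mod_lt _ hq), ?_⟩
    rw [← hf]
    exact hr.2
  · intro a ha b hb hab
    exact hinj a (mem_filter.1 ha).1 b (mem_filter.1 hb).1 hab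
  · intro b hb
    rw [mem_filter] at hb
    have h1 : b ∈ (range q).image (fun r => (ν + p * r) % q) := by rw [himg]; exact hb.1
    rw [mem_image] at h1
    obtain ⟨r, hr, hrb⟩ := h1
    refine ⟨r, ?_, hrb⟩
    rw [mem_filter]
    refine ⟨hr, ?_⟩
    rw [hf, hrb]
    exact hb.2

/-- at most two roots -/
theorem rt_le (a q : ℕ) (hq : q.Prime) : rt a q ≤ 2 := by
  classical
  unfold rt
  by_cases hne : ((range q).filter fun r => q ∣ r ^ 2 + a).Nonempty
  · obtain ⟨r0, hr0⟩ := hne
    rw [mem_filter, mem_range] at hr0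
    have hsub : ((range q).filter fun r => q ∣ r ^ 2 + a) ⊆ {r0, (q - r0) % q} := by
      intro r hr
      rw [mem_filter, mem_range] at hr
      have h1 : (q : ℤ) ∣ ((r : ℤ) - r0) * (r + r0) := by
        have h2 : (q : ℤ) ∣ (r : ℤ) ^ 2 + a := by exact_mod_cast hr.2
        have h3 : (q : ℤ) ∣ (r0 : ℤ) ^ 2 + a := by exact_mod_cast hr0.2
        have h4 := dvd_sub h2 h3
        have h5 : (r : ℤ) ^ 2 + a - ((r0 : ℤ) ^ 2 + a) = ((r : ℤ) - r0) * (r + r0) := by ring
        rwa [h5] at h4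
      rw [mem_insert, mem_singleton]
      rcases (Nat.prime_iff_prime_int.1 hq).dvd_or_dvd h1 with h2 | h2
      · left
        have h3 : (r0 : ℤ) ≡ r [ZMOD q] := by rw [Int.modEq_iff_dvd]; exact h2
        have h4 : r0 ≡ r [MOD q] := by exact_mod_cast h3
        exact (Nat.ModEq.eq_of_lt_of_lt h4 hr0.1 hr.1).symm
      · right
        have h3 : q ∣ r + r0 := by exact_mod_cast h2
        have h4 : (q - r0) % q < q := Nat.mod_lt _ hq.pos
        have h5 : (q - r0) % q ≡ r [MOD q] := by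
          have h6 : (q - r0) + r0 ≡ r + r0 [MOD q] := by
            have h7 : q - r0 + r0 = q := by omega
            rw [h7]
            exact ((Nat.modEq_zero_iff_dvd.2 (dvd_refl q))).trans
              (Nat.modEq_zero_iff_dvd.2 h3).symm
          exact (Nat.mod_modEq _ _).trans (Nat.ModEq.add_right_cancel' _ h6)
        exact (Nat.ModEq.eq_of_lt_of_lt h5 h4 hr.1).symm
    exact (card_le_card hsub).trans (card_le_two)
  · rw [not_nonempty_iff_eq_empty] at hne
    rw [hne]
    simp

theorem rF_le (q : ℕ) (hq : q.Prime) : rF q ≤ 4 := by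
  classical
  have h1 : rF q ≤ rt 1 q + rt 3 q := by
    unfold rF rt
    refine le_trans (card_le_card ?_) (card_union_le _ _)
    intro r hr
    rw [mem_union, mem_filter, mem_filter]
    rw [mem_filter] at hr
    have h2 : q ∣ (r ^ 2 + 1) * (r ^ 2 + 3) := hr.2
    rcases hq.dvd_mul.1 h2 with h | h
    · exact Or.inl ⟨hr.1, h⟩
    · exact Or.inr ⟨hr.1, h⟩
  have := rt_le 1 q hq
  have := rt_le 3 q hq
  omega

theorem pz_eq (z : ℕ) : pz z = P z := rfl

theorem fac_low (q : ℕ) (hq : q.Prime) : (1 - 1 / (q : ℝ)) ^ 8 ≤ 1 - (rF q : ℝ) / q := by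
  rcases Nat.lt_or_ge q 5 with h5 | h5
  · have hq2 : q = 2 ∨ q = 3 := by
      have := hq.two_le
      interval_cases q
      · left; rfl
      · right; rfl
      · exact absurd hq (by norm_num)
    rcases hq2 with h | h
    · subst h
      have h1 : rF 2 = 1 := by decide
      rw [h1]
      norm_num
    · subst h
      have h1 : rF 3 = 1 := by decide
      rw [h1]
      norm_num
  · have hqr : (5 : ℝ) ≤ q := by exact_mod_cast h5
    have hq0 : (0 : ℝ) < q := by linarith
    have h1 : (rF q : ℝ) ≤ 4 := by exact_mod_cast rF_le q hq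
    have h2 : (rF q : ℝ) / q ≤ 4 * (1 / (q : ℝ)) := by
      rw [mul_one_div]
      exact div_le_div_of_nonneg_right h1 hq0.le
    set x : ℝ := 1 / (q : ℝ) with hx
    have hx0 : 0 < x := by positivity
    have hx5 : x ≤ 1 / 5 := one_div_le_one_div_of_le (by norm_num) hqr
    have a1 : (1 - x) ^ 2 ≤ 1 - 9 / 5 * x := by nlinarith
    have a2 : (1 - x) ^ 4 ≤ 1 - 295 / 100 * x := by
      calc (1 - x) ^ 4 = ((1 - x) ^ 2) ^ 2 := by ring
        _ ≤ (1 - 9 / 5 * x) ^ 2 := pow_le_pow_left₀ (by positivity) a1 2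
        _ ≤ _ := by nlinarith
    have a3 : (1 - x) ^ 8 ≤ 1 - 4 * x := by
      calc (1 - x) ^ 8 = ((1 - x) ^ 4) ^ 2 := by ring
        _ ≤ (1 - 295 / 100 * x) ^ 2 := pow_le_pow_left₀ (by positivity) a2 2
        _ ≤ _ := by nlinarith
    linarith

theorem VF_low (z : ℕ) : Vz z ^ 8 ≤ VF z := by
  unfold Vz VF
  rw [← prod_pow, pz_eq]
  apply prod_le_prod
  · intro i hi
    have hi' : i ∈ pz z := hi
    have h1 : (1 : ℝ) < i := by exact_mod_cast (mem_pz.1 hi').2.one_lt
    have h2 : 1 / (i : ℝ) ≤ 1 := by rw [div_le_one (by linarith)]; exact h1.le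
    have : 0 ≤ 1 - 1 / (i : ℝ) := by linarith
    positivity
  · intro i hi
    have hi' : i ∈ pz z := hi
    exact fac_low i (mem_pz.1 hi').2

theorem VF_pos (z : ℕ) : 0 < VF z := by
  refine lt_of_lt_of_le ?_ (VF_low z)
  apply pow_pos
  unfold Vz
  apply prod_pos
  intro p hp
  have h1 : (1 : ℝ) < p := by exact_mod_cast (mem_pz.1 hp).2.one_lt
  have h2 : 1 / (p : ℝ) < 1 := by rw [div_lt_one (by linarith)]; exact h1
  linarith

/-- the error term is small -/
theorem err_small (ε : ℝ) (hε : 0 < ε) (K1 : ℕ) : ∃ z0 : ℕ, 2 ≤ z0 ∧ ∀ z : ℕ, z0 ≤ z →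
    1 + Real.sqrt ((z ^ K1 : ℕ) : ℝ) ≤ ε * ((z : ℝ) ^ (K1 + 1) * VF z) := by
  obtain ⟨C, N0, hV⟩ := Vz_low
  have h1 : ∀ᶠ x : ℝ in Filter.atTop, ‖Real.log x ^ (8 * C)‖ ≤ ε / 2 * ‖x‖ :=
    (Asymptotics.isLittleO_iff.1 (Real.isLittleO_pow_log_id_atTop (n := 8 * C)))
      (by positivity)
  obtain ⟨X0, hX0⟩ := Filter.eventually_atTop.1 h1
  refine ⟨max (max N0 3) (⌈X0⌉₊ + 1), ?_, ?_⟩
  · exact le_trans (by norm_num) (le_trans (le_max_right N0 3) (le_max_left _ _))
  intro z hz
  have hz1 : N0 ≤ z := le_trans (le_trans (le_max_left _ _) (le_max_left _ _)) hz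
  have hz2 : 3 ≤ z := le_trans (le_trans (le_max_right _ _) (le_max_left _ _)) hz
  have hz3 : X0 ≤ z := by
    have h2 : ⌈X0⌉₊ + 1 ≤ z := le_trans (le_max_right _ _) hz
    have h3 : X0 ≤ ⌈X0⌉₊ := Nat.le_ceil _
    have h4 : ((⌈X0⌉₊ : ℕ) : ℝ) ≤ z := by exact_mod_cast (by omega : ⌈X0⌉₊ ≤ z)
    linarith
  have hzr : (3 : ℝ) ≤ z := by exact_mod_cast hz2
  have hlog1 : 1 ≤ Real.log z := by
    rw [Real.le_log_iff_exp_le (by linarith)]
    have := Real.exp_one_lt_d9
    linarith
  have h2 := hX0 z hz3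
  rw [Real.norm_of_nonneg (by positivity), Real.norm_of_nonneg (by positivity)] at h2
  have hpos : 0 < Real.log z ^ (8 * C) := by positivity
  have h3 : 1 / Real.log z ^ (8 * C) ≤ VF z := by
    refine le_trans ?_ (VF_low z)
    have h4 := hV z hz1
    calc 1 / Real.log z ^ (8 * C) = (1 / Real.log z ^ C) ^ 8 := by
          rw [div_pow, one_pow, ← pow_mul, mul_comm]
      _ ≤ Vz z ^ 8 := pow_le_pow_left₀ (by positivity) h4 8
  have h4 : 2 ≤ ε * (z * VF z) := by
    have h5 : 1 ≤ VF z * Real.log z ^ (8 * C) := by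
      rwa [div_le_iff₀ hpos] at h3
    have h6 : VF z * Real.log z ^ (8 * C) ≤ VF z * (ε / 2 * z) :=
      mul_le_mul_of_nonneg_left h2 (VF_pos z).le
    linarith
  have h5 : Real.sqrt ((z ^ K1 : ℕ) : ℝ) ≤ (z : ℝ) ^ K1 := by
    rw [Real.sqrt_le_left (by positivity)]
    push_cast
    have h6 : (1 : ℝ) ≤ (z : ℝ) ^ K1 := one_le_pow₀ (by linarith)
    nlinarith
  have h6 : (1 : ℝ) ≤ (z : ℝ) ^ K1 := one_le_pow₀ (by linarith)
  calc 1 + Real.sqrt ((z ^ K1 : ℕ) : ℝ) ≤ (z : ℝ) ^ K1 * 2 := by linarith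
    _ ≤ (z : ℝ) ^ K1 * (ε * (z * VF z)) := mul_le_mul_of_nonneg_left h4 (by positivity)
    _ = _ := by ring

theorem F_mod (q n : ℕ) : q ∣ F n ↔ q ∣ F (n % q) := by
  unfold F
  have h1 : n % q ≡ n [MOD q] := Nat.mod_modEq _ _
  have h2 : ((n % q) ^ 2 + 1) * ((n % q) ^ 2 + 3) ≡ (n ^ 2 + 1) * (n ^ 2 + 3) [MOD q] :=
    ((h1.pow 2).add_right 1).mul ((h1.pow 2).add_right 3)
  exact (h2.dvd_iff (dvd_refl q)).symm

theorem F_modEq {q n m : ℕ} (h : n ≡ m [MOD q]) : q ∣ F n ↔ q ∣ F m := by
  rw [F_mod q n, F_mod q m, show n % q = m % q from h]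

theorem t_SIV : S_SIV := by
  classical
  intro ε hε
  obtain ⟨K1, x0, hK1, hfund⟩ := sys_fund 4 (by norm_num) (ε / 2) (by positivity)
  obtain ⟨z0, hz0, herr⟩ := err_small (ε / 2) (by positivity) K1
  refine ⟨K1 + 1, max x0 z0, fun z hz x => ?_⟩
  have hzx : x0 ≤ z := (le_max_left _ _).trans hz
  have hzz : z0 ≤ z := (le_max_right _ _).trans hz
  have hz2 : 2 ≤ z := hz0.trans hzz
  have hVF := VF_pos z
  have her := herr z hzz
  have hprod : ∏ p ∈ pz z, (1 - (nuB (fun q n => q ∣ F n) p : ℝ) / p) = VF z := by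
    unfold VF
    rw [pz_eq]
    apply prod_congr rfl
    intro q _
    have h1 : nuB (fun q n => q ∣ F n) q = rF q := by
      unfold nuB rF
      congr
    rw [h1]
  constructor
  · intro hx
    have hPB : PerB (fun q n => q ∣ F n) 4 := by
      refine ⟨fun p n => F_mod p n, fun p hp => ?_⟩
      have h1 : nuB (fun q n => q ∣ F n) p = rF p := by
        unfold nuB rF
        congr
      rw [h1]
      exact rF_le p hp
    have h1 := hfund (z ^ K1) z hzx le_rfl (fun q n => q ∣ F n) hPB x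
    rw [hprod] at h1
    have h1' : |((((Icc 1 x).filter (fun m => Sft z m)).card : ℕ) : ℝ) - x * VF z| ≤
        ε / 2 * (x * VF z) + Real.sqrt ((z ^ K1 : ℕ) : ℝ) := by
      refine le_trans (le_of_eq ?_) h1
      congr
    have hxr : (z : ℝ) ^ (K1 + 1) ≤ x := by exact_mod_cast hx
    have h4 : Real.sqrt ((z ^ K1 : ℕ) : ℝ) ≤ ε / 2 * (x * VF z) := by
      have h5 : (z : ℝ) ^ (K1 + 1) * VF z ≤ x * VF z := mul_le_mul_of_nonneg_right hxr hVF.le
      have h6 := mul_le_mul_of_nonneg_left h5 (by positivity : (0 : ℝ) ≤ ε / 2)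
      linarith
    have h7 : ε / 2 * (x * VF z) + Real.sqrt ((z ^ K1 : ℕ) : ℝ) ≤ ε * (x * VF z) := by linarith
    refine le_trans ?_ (h1'.trans h7)
    apply le_of_eq
    congr
  · intro a p ha hp hzp hx
    have hp0 : (0 : ℝ) < p := by exact_mod_cast hp.pos
    have hxp : (z : ℝ) ^ (K1 + 1) ≤ (x : ℝ) / p := by
      rw [le_div_iff₀ hp0]
      exact_mod_cast hx
    -- one class
    have hclass : ∀ ν ∈ (range p).filter (fun r => p ∣ r ^ 2 + a),
        (((((Icc 1 x).filter fun m => Sft z m ∧ p ∣ m ^ 2 + a).filter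
          (fun m => m % p = ν)).card : ℕ) : ℝ) ≤ (1 + ε) * ((x : ℝ) / p * VF z) := by
      intro ν hν
      rw [mem_filter, mem_range] at hν
      set Q : ℕ → ℕ → Prop := fun q t => if q.Prime ∧ q ≤ z then q ∣ F (ν + p * t) else
        q ∣ F t with hQ
      have hcop : ∀ q : ℕ, q.Prime → q ≤ z → Nat.Coprime p q := by
        intro q hq hqz
        rw [Nat.coprime_primes hp hq]
        omega
      have hnu : ∀ q : ℕ, q.Prime → q ≤ z → nuB Q q = rF q := by
        intro q hq hqz
        unfold nuB rF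
        have h1 := nu_affine q p ν hq.pos (hcop q hq hqz) (fun n => q ∣ F n)
          (fun n => F_mod q n)
        rw [← h1]
        congr 1
        ext r
        simp only [mem_filter, hQ, if_pos (And.intro hq hqz)]
      have hPB : PerB Q 4 := by
        refine ⟨fun q n => ?_, fun q hq => ?_⟩
        · simp only [hQ]
          split_ifs with h
          · apply F_modEq
            exact ((Nat.mod_modEq n q).symm.mul_left p).add_left ν
          · exact F_mod q n
        · by_cases hqz : q ≤ z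
          · rw [hnu q hq hqz]; exact rF_le q hq
          · have h1 : nuB Q q = rF q := by
              unfold nuB rF
              congr 1
              ext r
              simp only [mem_filter, hQ]
              rw [if_neg (fun h => hqz h.2)]
            rw [h1]; exact rF_le q hq
      have hprodQ : ∏ q ∈ pz z, (1 - (nuB Q q : ℝ) / q) = VF z := by
        unfold VF
        rw [pz_eq]
        apply prod_congr rfl
        intro q hq
        have hq' : q ∈ pz z := hq
        rw [hnu q (mem_pz.1 hq').2 (mem_pz.1 hq').1]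
      have h1' := (abs_le.1 (hfund (z ^ K1) z hzx le_rfl Q hPB (x / p))).2
      rw [hprodQ] at h1'
      have h1 : ((((Icc 1 (x / p)).filter (fun n : ℕ => ∀ q ∈ pz z, ¬ Q q n)).card : ℕ) : ℝ) -
          ((x / p : ℕ) : ℝ) * VF z ≤ ε / 2 * (((x / p : ℕ) : ℝ) * VF z) +
            Real.sqrt ((z ^ K1 : ℕ) : ℝ) := by
        refine le_trans (le_of_eq ?_) h1'
        congr
      -- comparison of the counts
      have hcnt : ((((Icc 1 x).filter fun m => Sft z m ∧ p ∣ m ^ 2 + a).filter
          (fun m => m % p = ν)).card : ℕ) ≤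
          1 + ((Icc 1 (x / p)).filter (fun n : ℕ => ∀ q ∈ pz z, ¬ Q q n)).card := by
        have hsub : (((Icc 1 x).filter fun m => Sft z m ∧ p ∣ m ^ 2 + a).filter
            (fun m => m % p = ν)) ⊆ {ν} ∪
            (((Icc 1 (x / p)).filter (fun n : ℕ => ∀ q ∈ pz z, ¬ Q q n)).image
              (fun t => ν + p * t)) := by
          intro m hm
          rw [mem_filter, mem_filter, mem_Icc] at hm
          obtain ⟨⟨⟨hm1, hm2⟩, hm3, hm4⟩, hm5⟩ := hm
          rw [mem_union, mem_singleton, mem_image]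
          have hdiv : ν + p * (m / p) = m := by rw [← hm5]; exact Nat.mod_add_div m p
          rcases Nat.eq_zero_or_pos (m / p) with h0 | h0
          · left
            rw [h0, mul_zero, add_zero] at hdiv
            exact hdiv.symm
          · right
            refine ⟨m / p, ?_, hdiv⟩
            rw [mem_filter, mem_Icc]
            refine ⟨⟨h0, Nat.div_le_div_right hm2⟩, fun q hq => ?_⟩
            have hq2 := mem_pz.1 hq
            simp only [hQ, if_pos (And.intro hq2.2 hq2.1)]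
            rw [hdiv]
            exact hm3 q hq
        refine (card_le_card hsub).trans ((card_union_le _ _).trans ?_)
        rw [card_singleton]
        exact Nat.add_le_add_left card_image_le 1
      have hcnt' : (((((Icc 1 x).filter fun m => Sft z m ∧ p ∣ m ^ 2 + a).filter
          (fun m => m % p = ν)).card : ℕ) : ℝ) ≤
          1 + ((((Icc 1 (x / p)).filter (fun n : ℕ => ∀ q ∈ pz z, ¬ Q q n)).card : ℕ) : ℝ) := by
        exact_mod_cast hcnt
      have hX : ((x / p : ℕ) : ℝ) ≤ (x : ℝ) / p := Nat.cast_div_le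
      have h2 : ((x / p : ℕ) : ℝ) * VF z ≤ (x : ℝ) / p * VF z :=
        mul_le_mul_of_nonneg_right hX hVF.le
      have h3 : (z : ℝ) ^ (K1 + 1) * VF z ≤ (x : ℝ) / p * VF z :=
        mul_le_mul_of_nonneg_right hxp hVF.le
      have h4 := mul_le_mul_of_nonneg_left h3 (by positivity : (0 : ℝ) ≤ ε / 2)
      have h5 := mul_le_mul_of_nonneg_left h2 (by positivity : (0 : ℝ) ≤ ε / 2)
      linarith
    -- sum over the classes
    have hmap : ∀ m ∈ (Icc 1 x).filter (fun m => Sft z m ∧ p ∣ m ^ 2 + a),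
        m % p ∈ (range p).filter (fun r => p ∣ r ^ 2 + a) := by
      intro m hm
      rw [mem_filter] at hm ⊢
      refine ⟨mem_range.2 (Nat.mod_lt _ hp.pos), ?_⟩
      have h1 : (m % p) ^ 2 + a ≡ m ^ 2 + a [MOD p] :=
        ((Nat.mod_modEq m p).pow 2).add_right a
      exact (h1.dvd_iff (dvd_refl p)).2 hm.2.2
    have h1 := card_eq_sum_card_fiberwise hmap
    have h2 : ((((Icc 1 x).filter fun m => Sft z m ∧ p ∣ m ^ 2 + a).card : ℕ) : ℝ) ≤
        (1 + ε) * ((rt a p : ℝ) / p * (x * VF z)) := by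
      rw [h1]
      push_cast
      refine (sum_le_sum hclass).trans ?_
      rw [sum_const, nsmul_eq_mul]
      apply le_of_eq
      have h3 : (((range p).filter (fun r => p ∣ r ^ 2 + a)).card : ℝ) = rt a p := by
        unfold rt
        congr
      rw [h3]
      ring
    refine le_trans ?_ h2
    apply le_of_eq
    congr

end Pool.Agent.D0H65.LP
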