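import Pool.Agent.D0H65.LP.Siv

/-!
# LP, module TOP: few `m` have a prime factor near `x ^ 2`
-/

set_option autoImplicit false

namespace Pool.Agent.D0H65.LP

open Finset Pool.Agent.D0H41.LP Pool.Agent.H373R2.T7

/-- `C (log x) ^ 2 ≤ δ √x` for large `x` -/
theorem ev_log_sqrt (A : ℝ) : ∃ X0 : ℕ, 3 ≤ X0 ∧ ∀ x : ℕ, X0 ≤ x →
    A * Real.log x ^ 2 ≤ Real.sqrt x := by
  have h1 : ∀ᶠ x : ℝ in Filter.atTop, ‖Real.log x ^ (4 : ℕ)‖ ≤ (1 / (|A| + 1) ^ 2) * ‖x‖ :=
    (Asymptotics.isLittleO_iff.1 (Real.isLittleO_pow_log_id_atTop (n := 4)))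
      (by positivity)
  obtain ⟨X0, hX0⟩ := Filter.eventually_atTop.1 h1
  refine ⟨max 3 (⌈X0⌉₊ + 1), le_max_left _ _, fun x hx => ?_⟩
  have hx2 : 3 ≤ x := le_trans (le_max_left _ _) hx
  have hx3 : X0 ≤ x := by
    have h2 : ⌈X0⌉₊ + 1 ≤ x := le_trans (le_max_right _ _) hx
    have h3 : X0 ≤ ⌈X0⌉₊ := Nat.le_ceil _
    have h4 : ((⌈X0⌉₊ : ℕ) : ℝ) ≤ x := by exact_mod_cast (by omega : ⌈X0⌉₊ ≤ x)
    linarith
  have h2 := hX0 x hx3
  have hlog : 0 ≤ Real.log x := Real.log_nonneg (by exact_mod_cast (by omega : 1 ≤ x))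
  rw [Real.norm_of_nonneg (by positivity), Real.norm_of_nonneg (by positivity)] at h2
  have hA : A ≤ |A| + 1 := by have := le_abs_self A; linarith
  calc A * Real.log x ^ 2 ≤ (|A| + 1) * Real.log x ^ 2 :=
        mul_le_mul_of_nonneg_right hA (by positivity)
    _ ≤ Real.sqrt x := by
        apply Real.le_sqrt_of_sq_le
        have h3 : ((|A| + 1) * Real.log x ^ 2) ^ 2 = (|A| + 1) ^ 2 * Real.log x ^ 4 := by ring
        rw [h3]
        have h4 := mul_le_mul_of_nonneg_left h2 (by positivity : (0 : ℝ) ≤ (|A| + 1) ^ 2)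
        have h5 : (|A| + 1) ^ 2 * (1 / (|A| + 1) ^ 2 * (x : ℝ)) = x := by
          field_simp
        rwa [h5] at h4

theorem ev_log (A : ℝ) : ∃ X0 : ℕ, 3 ≤ X0 ∧ ∀ x : ℕ, X0 ≤ x → A ≤ Real.log x := by
  obtain ⟨N, hN⟩ := Filter.eventually_atTop.1 ((Real.tendsto_log_atTop.comp
    tendsto_natCast_atTop_atTop).eventually_ge_atTop A)
  exact ⟨max 3 N, le_max_left _ _, fun x hx => hN x (le_trans (le_max_right _ _) hx)⟩

set_option maxHeartbeats 1000000 in
theorem t_TOP : S_MERP → S_TOP := by
  classical
  intro hMERP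
  obtain ⟨CM, hCM, hM1, hM2⟩ := hMERP
  obtain ⟨K, x0, hK, hfund⟩ := sys_fund 4 (by norm_num) 1 (by norm_num)
  obtain ⟨K', z0, hsiv⟩ := t_SIV 1 (by norm_num)
  set c' : ℝ := 1 / K with hc'
  have hKr : (1 : ℝ) ≤ K := by exact_mod_cast hK
  have hK0 : (0 : ℝ) < K := by linarith
  have hc0 : 0 < c' := by positivity
  have hc1 : c' ≤ 1 := by rw [hc', div_le_one hK0]; exact hKr
  refine ⟨8 * CM / c' + 4 / c' + 1, by positivity, ?_⟩
  intro δ hδ hδ1
  set η : ℝ := min δ (min c' (1 / (K' + 1))) with hη
  have hη0 : 0 < η := lt_min hδ (lt_min hc0 (by positivity))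
  obtain ⟨X1, hX1, hsq⟩ := ev_log_sqrt (CM / δ)
  obtain ⟨X2, hX2, hlg⟩ := ev_log (2 / δ + 4 / c' + (Real.log x0 + 2) / c')
  refine ⟨η, hη0, max X1 X2, max z0 2, ?_⟩
  intro x hx z hz hzx a ha
  have hx1 : X1 ≤ x := (le_max_left _ _).trans hx
  have hx2 : X2 ≤ x := (le_max_right _ _).trans hx
  have hx3 : 3 ≤ x := hX1.trans hx1
  have hxr : (3 : ℝ) ≤ x := by exact_mod_cast hx3
  have hx0r : (0 : ℝ) < x := by linarith
  have hx1r : (1 : ℝ) ≤ x := by linarith
  have hzz0 : z0 ≤ z := (le_max_left _ _).trans hz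
  have hz2 : 2 ≤ z := (le_max_right _ _).trans hz
  have hVF := VF_pos z
  have hxV : 0 < (x : ℝ) * VF z := by positivity
  have hlogx := hlg x hx2
  have hsqx := hsq x hx1
  have hlog0 : 0 < Real.log x := Real.log_pos (by linarith)
  set S := (Icc 1 x).filter (fun m => Sft z m ∧ ∃ p : ℕ, p.Prime ∧ (x : ℝ) ^ (2 - δ) < p ∧
      p ∣ m ^ 2 + a) with hS
  suffices hmain : ((S.card : ℕ) : ℝ) ≤ (8 * CM / c' + 4 / c' + 1) * δ * (x * VF z) by
    refine le_trans (le_of_eq ?_) hmain
    rw [hS]
  by_cases hδc : c' / 2 ≤ δ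
  · -- trivial bound
    have hzK : z ^ K' ≤ x := by
      have h1 : (z : ℝ) ≤ (x : ℝ) ^ (1 / ((K' : ℝ) + 1)) := by
        refine hzx.trans ?_
        apply Real.rpow_le_rpow_of_exponent_le hx1r
        exact (min_le_right _ _).trans (min_le_right _ _)
      have h2 : (z : ℝ) ^ K' ≤ x := by
        calc (z : ℝ) ^ K' ≤ ((x : ℝ) ^ (1 / ((K' : ℝ) + 1))) ^ K' :=
              pow_le_pow_left₀ (Nat.cast_nonneg _) h1 _
          _ = (x : ℝ) ^ (1 / ((K' : ℝ) + 1) * K') := by
              rw [← Real.rpow_natCast, ← Real.rpow_mul hx0r.le]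
          _ ≤ (x : ℝ) ^ (1 : ℝ) := by
              apply Real.rpow_le_rpow_of_exponent_le hx1r
              rw [one_div, inv_mul_le_iff₀ (by positivity)]
              linarith
          _ = x := Real.rpow_one _
      exact_mod_cast h2
    have h1 := (abs_le.1 ((hsiv z hzz0 x).1 hzK)).2
    have h2 : ((S.card : ℕ) : ℝ) ≤ ((((Icc 1 x).filter fun m => Sft z m).card : ℕ) : ℝ) := by
      have : S ⊆ (Icc 1 x).filter fun m => Sft z m := by
        intro m hm
        rw [hS, mem_filter] at hm
        rw [mem_filter]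
        exact ⟨hm.1, hm.2.1⟩
      exact_mod_cast card_le_card this
    have h3 : ((((Icc 1 x).filter fun m => Sft z m).card : ℕ) : ℝ) ≤ 2 * (x * VF z) := by
      have h4 : ((((Icc 1 x).filter fun m => Sft z m).card : ℕ) : ℝ) - x * VF z ≤
          1 * (x * VF z) := by
        refine le_trans (le_of_eq ?_) h1
        congr
      linarith
    have h4 : 2 ≤ 4 / c' * δ := by
      have h5 : 4 / c' * (c' / 2) = 2 := by field_simp; norm_num
      have h6 : 4 / c' * (c' / 2) ≤ 4 / c' * δ := mul_le_mul_of_nonneg_left hδc (by positivity)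
      linarith
    have h5 : 2 ≤ (8 * CM / c' + 4 / c' + 1) * δ := by
      have h6 : 0 ≤ 8 * CM / c' * δ := by positivity
      nlinarith
    calc ((S.card : ℕ) : ℝ) ≤ 2 * (x * VF z) := h2.trans h3
      _ ≤ _ := mul_le_mul_of_nonneg_right h5 hxV.le
  · push Not at hδc
    set u : ℕ := ⌊4 * (x : ℝ) ^ δ⌋₊ with hu
    set v : ℕ := ⌊(x : ℝ) ^ c'⌋₊ with hv
    have hlogδ : 2 ≤ δ * Real.log x := by
      have h1 : 2 / δ ≤ Real.log x := by
        have h2 : 0 ≤ 4 / c' := by positivity
        have h3 : 0 ≤ (Real.log x0 + 2) / c' := by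
          apply div_nonneg _ hc0.le
          have := Real.log_natCast_nonneg x0
          linarith
        linarith
      rw [div_le_iff₀ hδ] at h1
      linarith
    have hlogc : 4 ≤ c' * Real.log x := by
      have h1 : 4 / c' ≤ Real.log x := by
        have h2 : 0 ≤ 2 / δ := by positivity
        have h3 : 0 ≤ (Real.log x0 + 2) / c' := by
          apply div_nonneg _ hc0.le
          have := Real.log_natCast_nonneg x0
          linarith
        linarith
      rw [div_le_iff₀ hc0] at h1
      linarith
    have hlogx0 : Real.log x0 + 2 ≤ c' * Real.log x := by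
      have h1 : (Real.log x0 + 2) / c' ≤ Real.log x := by
        have h2 : 0 ≤ 2 / δ := by positivity
        have h3 : 0 ≤ 4 / c' := by positivity
        linarith
      rw [div_le_iff₀ hc0] at h1
      linarith
    have hxδ : (x : ℝ) ^ δ = Real.exp (δ * Real.log x) := by
      rw [Real.rpow_def_of_pos hx0r, mul_comm]
    have hxc : (x : ℝ) ^ c' = Real.exp (c' * Real.log x) := by
      rw [Real.rpow_def_of_pos hx0r, mul_comm]
    have he2 : (7 : ℝ) ≤ Real.exp 2 := by
      have h1 : Real.exp 2 = Real.exp 1 * Real.exp 1 := by rw [← Real.exp_add]; norm_num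
      have h2 := Real.exp_one_gt_d9
      rw [h1]
      nlinarith
    have hxδ7 : 7 ≤ (x : ℝ) ^ δ := by
      rw [hxδ]; exact he2.trans (Real.exp_le_exp.2 hlogδ)
    have hxc7 : 7 ≤ (x : ℝ) ^ c' := by
      rw [hxc]; exact he2.trans (Real.exp_le_exp.2 (by linarith))
    have hu_le : (u : ℝ) ≤ 4 * (x : ℝ) ^ δ := Nat.floor_le (by positivity)
    have hu2 : 2 ≤ u := by
      rw [hu]
      apply Nat.le_floor
      push_cast
      linarith
    have hv_le : (v : ℝ) ≤ (x : ℝ) ^ c' := Nat.floor_le (by positivity)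
    have hv_lo : (x : ℝ) ^ c' < v + 1 := Nat.lt_floor_add_one _
    have hv_half : (x : ℝ) ^ c' / 2 ≤ v := by linarith
    -- u ≤ v
    have huv : u ≤ v := by
      apply Nat.floor_le_floor
      have h1 : (x : ℝ) ^ c' = (x : ℝ) ^ δ * (x : ℝ) ^ (c' - δ) := by
        rw [← Real.rpow_add hx0r]; congr 1; ring
      have h2 : 7 ≤ (x : ℝ) ^ (c' - δ) := by
        rw [Real.rpow_def_of_pos hx0r]
        refine he2.trans (Real.exp_le_exp.2 ?_)
        have h3 : c' / 2 ≤ c' - δ := by linarith
        have h4 : Real.log x * (c' / 2) ≤ Real.log x * (c' - δ) :=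
          mul_le_mul_of_nonneg_left h3 hlog0.le
        linarith
      rw [h1]
      have h3 : 0 < (x : ℝ) ^ δ := by positivity
      nlinarith
    have hzu : z ≤ u := by
      apply Nat.le_floor
      refine hzx.trans ?_
      calc (x : ℝ) ^ η ≤ (x : ℝ) ^ δ :=
            Real.rpow_le_rpow_of_exponent_le hx1r (min_le_left _ _)
        _ ≤ 4 * (x : ℝ) ^ δ := by linarith
    have hvK : v ^ K ≤ x := by
      have h1 : (v : ℝ) ^ K ≤ x := by
        calc (v : ℝ) ^ K ≤ ((x : ℝ) ^ c') ^ K := pow_le_pow_left₀ (Nat.cast_nonneg _) hv_le _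
          _ = (x : ℝ) ^ (c' * K) := by rw [← Real.rpow_natCast, ← Real.rpow_mul hx0r.le]
          _ = x := by
              have : c' * K = 1 := by rw [hc']; field_simp
              rw [this, Real.rpow_one]
      exact_mod_cast h1
    have hv_x0 : x0 ≤ v := by
      apply Nat.le_floor
      rw [hxc]
      rcases Nat.eq_zero_or_pos x0 with h | h
      · rw [h]
        push_cast
        positivity
      · have h1 : (0 : ℝ) < x0 := by exact_mod_cast h
        calc (x0 : ℝ) = Real.exp (Real.log x0) := (Real.exp_log h1).symm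
          _ ≤ _ := Real.exp_le_exp.2 (by linarith)
    -- the conditions
    obtain ⟨Q, hQ⟩ : ∃ Q : ℕ → ℕ → Prop,
      Q = fun q n => (q ≤ z ∧ q ∣ F n) ∨ (u < q ∧ q ∣ n ^ 2 + a) := ⟨_, rfl⟩
    have hQF : ∀ q n, Q q n → q ∣ F n := by
      intro q n h
      rw [hQ] at h
      rcases h with h | h
      · exact h.2
      · unfold F
        rcases ha with h1 | h1
        · subst h1; exact h.2.mul_right _
        · subst h1; exact h.2.mul_left _
    have hmod : ∀ q n, q ∣ n ^ 2 + a ↔ q ∣ (n % q) ^ 2 + a := by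
      intro q n
      have h1 : (n % q) ^ 2 + a ≡ n ^ 2 + a [MOD q] :=
        ((Nat.mod_modEq n q).pow 2).add_right a
      exact (h1.dvd_iff (dvd_refl q)).symm
    have hPB : PerB Q 4 := by
      refine ⟨fun q n => ?_, fun q hq => ?_⟩
      · simp only [hQ]
        rw [← F_mod q n, ← hmod q n]
      · refine le_trans ?_ (rF_le q hq)
        unfold nuB rF
        apply card_le_card
        intro r hr
        rw [mem_filter] at hr ⊢
        exact ⟨hr.1, hQF q r hr.2⟩
    have hfd := hfund x v hv_x0 hvK Q hPB x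
    set Pi0 := ∏ p ∈ pz v, (1 - (nuB Q p : ℝ) / p) with hPi0
    -- the product
    have hprod : Pi0 = VF z * ∏ p ∈ (P v).filter (fun p => u < p), (1 - (rt a p : ℝ) / p) := by
      have h1 : ∀ p ∈ pz v, (1 - (nuB Q p : ℝ) / p) =
          (if p ≤ z then (1 - (rF p : ℝ) / p) else 1) *
            (if u < p then (1 - (rt a p : ℝ) / p) else 1) := by
        intro p hp
        by_cases h2 : p ≤ z
        · have h3 : ¬ u < p := by omega
          rw [if_pos h2, if_neg h3, mul_one]
          have h4 : nuB Q p = rF p := by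
            unfold nuB rF
            congr 1
            ext r
            simp only [mem_filter, hQ]
            constructor
            · rintro ⟨h5, h6⟩
              refine ⟨h5, ?_⟩
              rcases h6 with h6 | h6
              · exact h6.2
              · exact absurd h6.1 h3
            · rintro ⟨h5, h6⟩
              exact ⟨h5, Or.inl ⟨h2, h6⟩⟩
          rw [h4]
        · rw [if_neg h2, one_mul]
          by_cases h3 : u < p
          · rw [if_pos h3]
            have h4 : nuB Q p = rt a p := by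
              unfold nuB rt
              congr 1
              ext r
              simp only [mem_filter, hQ]
              constructor
              · rintro ⟨h5, h6⟩
                refine ⟨h5, ?_⟩
                rcases h6 with h6 | h6
                · exact absurd h6.1 h2
                · exact h6.2
              · rintro ⟨h5, h6⟩
                exact ⟨h5, Or.inr ⟨h3, h6⟩⟩
            rw [h4]
          · rw [if_neg h3]
            have h4 : nuB Q p = 0 := by
              unfold nuB
              rw [card_eq_zero, filter_eq_empty_iff]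
              intro r _ h6
              rw [hQ] at h6
              rcases h6 with h6 | h6
              · exact h2 h6.1
              · exact h3 h6.1
            rw [h4]
            simp
      rw [hPi0, prod_congr rfl h1, prod_mul_distrib]
      congr 1
      · unfold VF
        rw [← prod_filter]
        apply prod_congr _ (fun _ _ => rfl)
        ext p
        rw [mem_filter, mem_pz]
        have : p ∈ P z ↔ p ≤ z ∧ p.Prime := mem_pz (z := z) (p := p)
        rw [this]
        constructor
        · rintro ⟨⟨_, h4⟩, h5⟩; exact ⟨h5, h4⟩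
        · rintro ⟨h4, h5⟩; exact ⟨⟨by omega, h5⟩, h4⟩
      · rw [← prod_filter, pz_eq]
    have hMer := hM1 a ha u v hu2 huv
    have hprod_le : Pi0 ≤ VF z * (CM * (Real.log u / Real.log v)) := by
      rw [hprod]
      exact mul_le_mul_of_nonneg_left hMer hVF.le
    have hlogu : Real.log u ≤ 2 * (δ * Real.log x) := by
      have h1 : Real.log u ≤ Real.log (4 * (x : ℝ) ^ δ) := by
        apply Real.log_le_log _ hu_le
        exact_mod_cast (by omega : 0 < u)
      rw [Real.log_mul (by norm_num) (by positivity), Real.log_rpow hx0r] at h1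
      have h2 : Real.log 4 ≤ 2 := by
        have h3 : Real.log 4 = 2 * Real.log 2 := by
          rw [show (4 : ℝ) = 2 ^ 2 by norm_num, Real.log_pow]; norm_num
        have := Real.log_two_lt_d9
        linarith
      linarith
    have hlogv : c' / 2 * Real.log x ≤ Real.log v := by
      have h1 : Real.log ((x : ℝ) ^ c' / 2) ≤ Real.log v :=
        Real.log_le_log (by positivity) hv_half
      rw [Real.log_div (by positivity) (by norm_num), Real.log_rpow hx0r] at h1
      have := Real.log_two_lt_d9
      linarith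
    have hlogv0 : 0 < c' / 2 * Real.log x := by positivity
    have hratio : Real.log u / Real.log v ≤ 4 * δ / c' := by
      rw [div_le_div_iff₀ (by linarith) hc0]
      calc Real.log u * c' ≤ (2 * (δ * Real.log x)) * c' :=
            mul_le_mul_of_nonneg_right hlogu hc0.le
        _ = 4 * δ * (c' / 2 * Real.log x) := by ring
        _ ≤ 4 * δ * Real.log v := mul_le_mul_of_nonneg_left hlogv (by positivity)
    have hprod_le2 : Pi0 ≤ VF z * (CM * (4 * δ / c')) := by
      refine hprod_le.trans ?_
      apply mul_le_mul_of_nonneg_left _ hVF.le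
      exact mul_le_mul_of_nonneg_left hratio (by linarith)
    -- the count
    have hcnt : ((S.card : ℕ) : ℝ) ≤
        ((((Icc 1 x).filter (fun n : ℕ => ∀ p ∈ pz v, ¬ Q p n)).card : ℕ) : ℝ) := by
      have hsub : S ⊆ (Icc 1 x).filter (fun n : ℕ => ∀ p ∈ pz v, ¬ Q p n) := by
        intro m hm
        rw [hS, mem_filter] at hm
        obtain ⟨hm1, hm2, p, hp, hpx, hpm⟩ := hm
        rw [mem_filter]
        refine ⟨hm1, fun q hq hQq => ?_⟩
        rw [mem_Icc] at hm1
        have hq2 := mem_pz.1 hq
        rw [hQ] at hQq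
        rcases hQq with h | h
        · exact hm2 q (mem_pz.2 ⟨h.1, hq2.2⟩) h.2
        · obtain ⟨k, hk⟩ := hpm
          have hx2δ : (x : ℝ) ≤ (x : ℝ) ^ (2 - δ) := by
            calc (x : ℝ) = (x : ℝ) ^ (1 : ℝ) := (Real.rpow_one _).symm
              _ ≤ _ := Real.rpow_le_rpow_of_exponent_le hx1r (by linarith)
          have hvx : (v : ℝ) ≤ x := by
            calc (v : ℝ) ≤ (x : ℝ) ^ c' := hv_le
              _ ≤ (x : ℝ) ^ (1 : ℝ) := Real.rpow_le_rpow_of_exponent_le hx1r hc1
              _ = x := Real.rpow_one _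
          have hqp : q ≠ p := by
            intro h1
            have h2 : (q : ℝ) ≤ v := by exact_mod_cast hq2.1
            rw [h1] at h2
            linarith
          have hqk : q ∣ k := by
            have h1 : q ∣ p * k := by rw [← hk]; exact h.2
            rcases hq2.2.dvd_mul.1 h1 with h2 | h2
            · exact absurd ((Nat.prime_dvd_prime_iff_eq hq2.2 hp).1 h2) hqp
            · exact h2
          have hk0 : 0 < k := by
            rcases Nat.eq_zero_or_pos k with h1 | h1
            · exfalso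
              subst h1
              rw [mul_zero] at hk
              have : 0 < m ^ 2 := by
                apply pow_pos; omega
              omega
            · exact h1
          have hkr : (0 : ℝ) < k := by exact_mod_cast hk0
          have h1 : (k : ℝ) * (x : ℝ) ^ (2 - δ) < 4 * (x : ℝ) ^ 2 := by
            have h2 : (k : ℝ) * (x : ℝ) ^ (2 - δ) < k * p :=
              mul_lt_mul_of_pos_left hpx hkr
            have h3 : (k : ℝ) * p = (m : ℝ) ^ 2 + a := by
              have : ((m ^ 2 + a : ℕ) : ℝ) = ((p * k : ℕ) : ℝ) := by rw [hk]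
              push_cast at this
              linarith
            have h4 : (m : ℝ) ≤ x := by exact_mod_cast hm1.2
            have h5 : (m : ℝ) ^ 2 ≤ (x : ℝ) ^ 2 := pow_le_pow_left₀ (Nat.cast_nonneg _) h4 2
            have h6 : (a : ℝ) ≤ 3 := by
              rcases ha with h7 | h7
              · rw [h7]; norm_num
              · rw [h7]; norm_num
            nlinarith
          have h2 : (k : ℝ) < 4 * (x : ℝ) ^ δ := by
            have h3 : (x : ℝ) ^ 2 = (x : ℝ) ^ δ * (x : ℝ) ^ (2 - δ) := by
              rw [← Real.rpow_add hx0r, ← Real.rpow_natCast]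
              congr 1
              push_cast
              ring
            rw [h3, ← mul_assoc] at h1
            exact lt_of_mul_lt_mul_right h1 (by positivity)
          have h3 : k ≤ u := Nat.le_floor h2.le
          have h4 : q ≤ k := Nat.le_of_dvd hk0 hqk
          have := h.1
          omega
      exact_mod_cast card_le_card hsub
    have hfd2 : ((((Icc 1 x).filter (fun n : ℕ => ∀ p ∈ pz v, ¬ Q p n)).card : ℕ) : ℝ) -
        x * Pi0 ≤ 1 * (x * Pi0) + Real.sqrt x := by
      refine le_trans (le_of_eq ?_) (abs_le.1 hfd).2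
      congr
    -- the square root
    have hsqrt : Real.sqrt x ≤ δ * (x * VF z) := by
      have h1 := hM2 z hz2
      have hzx' : (z : ℝ) ≤ x := by
        calc (z : ℝ) ≤ (x : ℝ) ^ η := hzx
          _ ≤ (x : ℝ) ^ (1 : ℝ) := by
              apply Real.rpow_le_rpow_of_exponent_le hx1r
              exact (min_le_left _ _).trans hδ1
          _ = x := Real.rpow_one _
      have hlz : Real.log z ≤ Real.log x :=
        Real.log_le_log (by exact_mod_cast (by omega : 0 < z)) hzx'
      have hlz0 : 0 < Real.log z := Real.log_pos (by exact_mod_cast (by omega : 1 < z))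
      have h2 : 1 / (CM * Real.log x ^ 2) ≤ VF z := by
        refine le_trans ?_ h1
        apply one_div_le_one_div_of_le (by positivity)
        apply mul_le_mul_of_nonneg_left _ (by linarith)
        exact pow_le_pow_left₀ hlz0.le hlz 2
      have h3 : CM * Real.log x ^ 2 ≤ δ * Real.sqrt x := by
        have h4 := mul_le_mul_of_nonneg_left hsqx hδ.le
        have h5 : δ * (CM / δ * Real.log x ^ 2) = CM * Real.log x ^ 2 := by
          field_simp
        linarith
      have hCMl : 0 < CM * Real.log x ^ 2 := by positivity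
      have h4 : 1 ≤ VF z * (δ * Real.sqrt x) := by
        rw [div_le_iff₀ hCMl] at h2
        calc (1 : ℝ) ≤ VF z * (CM * Real.log x ^ 2) := h2
          _ ≤ _ := mul_le_mul_of_nonneg_left h3 hVF.le
      have h5 : Real.sqrt x * Real.sqrt x = x := Real.mul_self_sqrt hx0r.le
      calc Real.sqrt x = Real.sqrt x * 1 := (mul_one _).symm
        _ ≤ Real.sqrt x * (VF z * (δ * Real.sqrt x)) :=
            mul_le_mul_of_nonneg_left h4 (Real.sqrt_nonneg _)
        _ = δ * ((Real.sqrt x * Real.sqrt x) * VF z) := by ring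
        _ = _ := by rw [h5]
    have h1 : (x : ℝ) * Pi0 ≤ x * (VF z * (CM * (4 * δ / c'))) :=
      mul_le_mul_of_nonneg_left hprod_le2 hx0r.le
    have h2 : (x : ℝ) * (VF z * (CM * (4 * δ / c'))) = 4 * CM / c' * δ * (x * VF z) := by ring
    have h3 : 0 ≤ 4 / c' * δ * (x * VF z) := by positivity
    have h4 : (8 * CM / c' + 4 / c' + 1) * δ * (x * VF z) =
        2 * (4 * CM / c' * δ * (x * VF z)) + 4 / c' * δ * (x * VF z) + δ * (x * VF z) := by ring
    rw [h4]
    linarith

end Pool.Agent.D0H65.LP
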